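import Pool.Agent.Work.MP_4eb3f9_an_helper6.FF

/-!
# Block F, part 7: the first Cauchy-Schwarz factor
-/

open Complex MeasureTheory Filter Topology
open scoped ContDiff

namespace CMA

theorem stmt_F7_of (hI1 : Stmt_I1) (hI3 : Stmt_I3) (hT1 : Stmt_T1) : Stmt_F7 := by
  intro δ M κ S hδ hM hκ hadm hdir f hf φ hφ hφ0 hfφ
  obtain ⟨c, hc⟩ := hT1.1 δ hδ
  have hfs := (hadm f hf).spsh.smooth
  have hη := cd_eta hc hfs
  have hηs := eta_cs hδ hc hfs.continuous (hadm f hf).level
  -- the left-hand side is at most the full energy of the truncation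
  have hms : MeasurableSet (PD (1 / 2) (1 / 2)) := (isCompact_PD _ _).measurableSet
  have e1 : ∫ p in PD (1 / 2) (1 / 2), bB φ f f p =
      ∫ p in PD (1 / 2) (1 / 2), bB φ (eta c δ f) (eta c δ f) p := by
    refine setIntegral_congr_fun hms (fun p hp => ?_)
    have hp' := PD_half_sub hp
    exact (bB_eta_deep hc hfs φ ((hadm f hf).deep p hp'.1 hp'.2)).symm
  have hbs : HasCompactSupport (bB φ (eta c δ f) (eta c δ f)) := by
    refine hηs.mono' ?_
    intro p hp
    by_contra hh
    apply hp
    simp [bB, pd_eq_zero_of_nmem _ hh]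
  have hle1 : ∫ p in PD (1 / 2) (1 / 2), bB φ (eta c δ f) (eta c δ f) p ≤
      ∫ p, bB φ (eta c δ f) (eta c δ f) p :=
    setIntegral_le_integral (integrable_of_cs (cd_bB hφ.smooth hη hη).continuous hbs)
      (Filter.Eventually.of_forall (fun p => (hI1.1 φ (eta c δ f) (eta c δ f) p (hφ.pos p)).1))
  -- the test function
  set θ : ℂ × ℂ → ℝ := fun p => c (-φ p - δ) with hθ
  have hθc : Continuous θ := hc.smooth.continuous.comp
    (hφ.smooth.continuous.neg.sub continuous_const)
  have hθsub : Function.support θ ⊆ {p | f p ≤ -δ} := by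
    intro p hp
    by_contra hh
    have h1 : -δ < f p := by simpa using hh
    have h2 := hfφ p
    exact hp (hc.zero _ (by linarith))
  have hKc := lev_compact hfs.continuous (hadm f hf).level
  have hθs : HasCompactSupport θ := HasCompactSupport.of_support_subset_isCompact hKc hθsub
  have hθb : tsupport θ ⊆ Bidisc :=
    (closure_minimal hθsub hKc.isClosed).trans (lev_bidisc (hadm f hf).level)
  obtain ⟨g, hg, hgf, hgθ⟩ := hdir f hf θ hθc hθs hθb 1 one_pos
  have hgs := (hadm g hg).spsh
  have hI := hI3 δ c f g φ hδ hc (hadm f hf).spsh hgs hφ (hadm f hf).level (hadm g hg).level hgf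
    (hadm f hf).nonpos hφ0
  have hKg := lev_compact hgs.smooth.continuous (hadm g hg).level
  have cdH : Continuous (dH g) := (cd_dH hgs.smooth).continuous
  have i1 : IntegrableOn (fun p => (-φ p) * dH g p) {p | g p ≤ -δ} :=
    (hφ.smooth.continuous.neg.mul cdH).continuousOn.integrableOn_compact hKg
  have i2 : IntegrableOn (fun p => θ p * dH g p) {p | g p ≤ -δ} :=
    (hθc.mul cdH).continuousOn.integrableOn_compact hKg
  have i3 : IntegrableOn (fun p => 2 * δ * dH g p) {p | g p ≤ -δ} :=
    (continuous_const.mul cdH).continuousOn.integrableOn_compact hKg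
  have h1 : ∫ p in {p | g p ≤ -δ}, (-φ p) * dH g p ≤
      ∫ p in {p | g p ≤ -δ}, (θ p * dH g p + 2 * δ * dH g p) := by
    refine setIntegral_mono_on i1 (i2.add i3) hKg.measurableSet ?_
    intro p _
    have h2 := hc.ge (-φ p - δ)
    have h3 : -φ p ≤ θ p + 2 * δ := by simp only [hθ]; linarith
    have h4 := mul_le_mul_of_nonneg_right h3 (hgs.pos p).2.2
    linarith
  rw [integral_add i2 i3, integral_const_mul] at h1
  have h5 : ∫ p in {p | g p ≤ -δ}, θ p * dH g p ≤ ∫ p, θ p * dH g p :=
    setIntegral_le_integral (integrable_of_cs (hθc.mul cdH) hθs.mul_right)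
      (Filter.Eventually.of_forall (fun p => mul_nonneg (hc.nonneg _) (hgs.pos p).2.2))
  have h6 : 2 * δ * ∫ p in {p | g p ≤ -δ}, dH g p ≤ 2 * δ * M :=
    mul_le_mul_of_nonneg_left (hadm g hg).mass (by positivity)
  have h7 : ∫ p, θ p * dH g p ≤ κ * (∫ z in Metric.ball (0 : ℂ) 1, θ (z, 0)) + 1 := by
    have := (abs_le.1 hgθ).2
    linarith
  have h8 : ∫ z in Metric.ball (0 : ℂ) 1, θ (z, 0) ≤
      -(∫ z in Metric.ball (0 : ℂ) 1, φ (z, 0)) := by
    rw [← integral_neg]
    have hincl : Continuous (fun z : ℂ => ((z, 0) : ℂ × ℂ)) := by fun_prop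
    have j1 : IntegrableOn (fun z : ℂ => θ (z, 0)) (Metric.ball (0 : ℂ) 1) :=
      ((hθc.comp hincl).continuousOn.integrableOn_compact
        (isCompact_closedBall (0 : ℂ) 1)).mono_set Metric.ball_subset_closedBall
    have j2 : IntegrableOn (fun z : ℂ => -φ (z, 0)) (Metric.ball (0 : ℂ) 1) :=
      ((hφ.smooth.continuous.comp hincl).neg.continuousOn.integrableOn_compact
        (isCompact_closedBall (0 : ℂ) 1)).mono_set Metric.ball_subset_closedBall
    refine setIntegral_mono_on j1 j2 measurableSet_ball ?_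
    intro z hz
    have hz' : ‖z‖ < 1 := by simpa using hz
    have h9 := hφ0 (z, 0) ⟨hz', by simp⟩
    have h10 := hc.le (-φ (z, 0) - δ)
    have h11 : max (-φ (z, 0) - δ) 0 ≤ -φ (z, 0) := max_le (by linarith) (by linarith)
    simp only [hθ]
    linarith
  have h12 := mul_le_mul_of_nonneg_left h8 hκ.le
  have h13 : 0 ≤ δ * M := by positivity
  rw [e1]
  linarith

end CMA
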