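import Pool.Agent.Work.MP_4eb3f9_an.Basic

/-!
# Block F, part A: truncations and energies of admissible functions
-/

open Complex MeasureTheory Filter Topology
open scoped ContDiff

namespace CMA

variable {δ M : ℝ} {c : ℝ → ℝ} {f : ℂ × ℂ → ℝ}

lemma cd_eta (hc : IsCut δ c) (hf : ContDiff ℝ ∞ f) : ContDiff ℝ ∞ (eta c δ f) := by
  unfold eta
  exact hc.smooth.comp ((hf.neg).sub contDiff_const)

lemma eta_nonneg (hc : IsCut δ c) (p : ℂ × ℂ) : 0 ≤ eta c δ f p := hc.nonneg _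

lemma eta_ge (hc : IsCut δ c) (p : ℂ × ℂ) : -f p - 4 * δ ≤ eta c δ f p := by
  have := hc.ge (-f p - 3 * δ)
  unfold eta
  linarith

lemma eta_eq_zero (hδ : 0 < δ) (hc : IsCut δ c) {p : ℂ × ℂ} (h : -δ < f p) : eta c δ f p = 0 := by
  unfold eta
  exact hc.zero _ (by linarith)

lemma eta_supp (hδ : 0 < δ) (hc : IsCut δ c) (hl : Lev δ f) {p : ℂ × ℂ} (h : eta c δ f p ≠ 0) :
    p ∈ Bidisc := by
  obtain ⟨ρ, hρ, hρ'⟩ := hl
  have : f p ≤ -δ := by
    by_contra hh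
    exact h (eta_eq_zero hδ hc (not_le.1 hh))
  have := hρ' p this
  exact ⟨lt_of_le_of_lt this.1 hρ, lt_of_le_of_lt this.2 hρ⟩

lemma isCompact_PD (a b : ℝ) : IsCompact (PD a b) := by
  have : PD a b = (Metric.closedBall (0 : ℂ) a) ×ˢ (Metric.closedBall (0 : ℂ) b) := by
    ext p; simp [PD]
  rw [this]
  exact (isCompact_closedBall _ _).prod (isCompact_closedBall _ _)

lemma lev_subset {ρ : ℝ} (h : ∀ p : ℂ × ℂ, f p ≤ -δ → ‖p.1‖ ≤ ρ ∧ ‖p.2‖ ≤ ρ) :
    {p | f p ≤ -δ} ⊆ PD ρ ρ := fun p hp => h p hp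

lemma lev_compact (hf : Continuous f) (hl : Lev δ f) : IsCompact {p | f p ≤ -δ} := by
  obtain ⟨ρ, _, hρ'⟩ := hl
  exact (isCompact_PD ρ ρ).of_isClosed_subset (isClosed_le hf continuous_const) (lev_subset hρ')

lemma lev_bidisc (hl : Lev δ f) : {p | f p ≤ -δ} ⊆ Bidisc := by
  obtain ⟨ρ, hρ, hρ'⟩ := hl
  intro p hp
  exact ⟨lt_of_le_of_lt (hρ' p hp).1 hρ, lt_of_le_of_lt (hρ' p hp).2 hρ⟩

lemma eta_cs (hδ : 0 < δ) (hc : IsCut δ c) (hf : Continuous f) (hl : Lev δ f) :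
    HasCompactSupport (eta c δ f) := by
  refine HasCompactSupport.of_support_subset_isCompact (lev_compact hf hl) ?_
  intro p hp
  by_contra hh
  exact hp (eta_eq_zero hδ hc (by simpa using hh))

lemma pd_eta (hc : IsCut δ c) (hf : ContDiff ℝ ∞ f) (k : Fin 4) (p : ℂ × ℂ) :
    pd k (eta c δ f) p = - (deriv c (-f p - 3 * δ) * pd k f p) := by
  have h : ContDiff ℝ ∞ (fun q => -f q - 3 * δ) := (hf.neg).sub contDiff_const
  have h1 := congrFun (pd_comp hc.smooth h k) p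
  have h2 : pd k (fun q => -f q - 3 * δ) p = - pd k f p := by
    rw [pd_sub_at ((cd_diff hf p).fun_neg) (differentiableAt_const _), pd_neg, pd_const, sub_zero]
  show pd k (fun q => c (-f q - 3 * δ)) p = _
  rw [h1, h2]
  ring

lemma pd_eta_deep (hc : IsCut δ c) (hf : ContDiff ℝ ∞ f) (k : Fin 4) {p : ℂ × ℂ}
    (hp : f p ≤ -4 * δ) : pd k (eta c δ f) p = - pd k f p := by
  rw [pd_eta hc hf, hc.deriv_one _ (by linarith), one_mul]

lemma gw_eta_deep (hc : IsCut δ c) (hf : ContDiff ℝ ∞ f) {p : ℂ × ℂ}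
    (hp : f p ≤ -4 * δ) : gw (eta c δ f) p = gw f p := by
  simp only [gw, pd_eta_deep hc hf _ hp]; ring

lemma gz_eta_deep (hc : IsCut δ c) (hf : ContDiff ℝ ∞ f) {p : ℂ × ℂ}
    (hp : f p ≤ -4 * δ) : gz (eta c δ f) p = gz f p := by
  simp only [gz, pd_eta_deep hc hf _ hp]; ring

lemma bB_eta_deep (hc : IsCut δ c) (hf : ContDiff ℝ ∞ f) (φ : ℂ × ℂ → ℝ) {p : ℂ × ℂ}
    (hp : f p ≤ -4 * δ) : bB φ (eta c δ f) (eta c δ f) p = bB φ f f p := by
  simp only [bB, pd_eta_deep hc hf _ hp]; ring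

/-- Adding a constant does not change derivatives. -/
lemma pd_add_const (f : ℂ × ℂ → ℝ) (a : ℝ) (k : Fin 4) : pd k (fun q => f q + a) = pd k f := by
  funext p
  unfold pd
  rw [fderiv_add_const]

lemma pd_sub_const (f : ℂ × ℂ → ℝ) (a : ℝ) (k : Fin 4) : pd k (fun q => f q - a) = pd k f := by
  simpa [sub_eq_add_neg] using pd_add_const f (-a) k

lemma hww_sub_const (f : ℂ × ℂ → ℝ) (a : ℝ) (p : ℂ × ℂ) : hww (fun q => f q - a) p = hww f p := by
  simp only [hww, pd_sub_const]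

lemma hzz_sub_const (f : ℂ × ℂ → ℝ) (a : ℝ) (p : ℂ × ℂ) : hzz (fun q => f q - a) p = hzz f p := by
  simp only [hzz, pd_sub_const]

lemma hP_sub_const (f : ℂ × ℂ → ℝ) (a : ℝ) (p : ℂ × ℂ) : hP (fun q => f q - a) p = hP f p := by
  simp only [hP, pd_sub_const]

lemma hQ_sub_const (f : ℂ × ℂ → ℝ) (a : ℝ) (p : ℂ × ℂ) : hQ (fun q => f q - a) p = hQ f p := by
  simp only [hQ, pd_sub_const]

lemma dH_sub_const (f : ℂ × ℂ → ℝ) (a : ℝ) (p : ℂ × ℂ) : dH (fun q => f q - a) p = dH f p := by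
  simp only [dH, hzz_sub_const, hww_sub_const, hP_sub_const, hQ_sub_const]

lemma LPos_sub_const (f : ℂ × ℂ → ℝ) (a : ℝ) (p : ℂ × ℂ) :
    LPos (fun q => f q - a) p ↔ LPos f p := by
  simp only [LPos, dH_sub_const, hzz_sub_const, hww_sub_const]

lemma SPsh.sub_const (h : SPsh f) (a : ℝ) : SPsh (fun q => f q - a) :=
  ⟨h.smooth.sub contDiff_const, fun p => (LPos_sub_const f a p).2 (h.pos p)⟩

/-- The right-hand side of the energy chain with `g = f` for a bounded weight. -/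
lemma rhs_le (hδ : 0 < δ) (ha : Adm δ M f) {φ : ℂ × ℂ → ℝ} (hφ : Continuous φ) {A : ℝ}
    (hA : 0 ≤ A) (h1 : ∀ p ∈ Bidisc, -φ p ≤ A) :
    6 * ∫ p in {p | f p ≤ -δ}, (-φ p) * dH f p ≤ 6 * (A * M) := by
  have hK := lev_compact ha.spsh.smooth.continuous ha.level
  have hcd : Continuous (dH f) := (cd_dH ha.spsh.smooth).continuous
  have i1 : IntegrableOn (fun p => (-φ p) * dH f p) {p | f p ≤ -δ} :=
    (hφ.neg.mul hcd).continuousOn.integrableOn_compact hK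
  have i2 : IntegrableOn (fun p => A * dH f p) {p | f p ≤ -δ} :=
    (continuous_const.mul hcd).continuousOn.integrableOn_compact hK
  have h2 : ∫ p in {p | f p ≤ -δ}, (-φ p) * dH f p ≤ ∫ p in {p | f p ≤ -δ}, A * dH f p := by
    refine setIntegral_mono_on i1 i2 hK.measurableSet ?_
    intro p hp
    exact mul_le_mul_of_nonneg_right (h1 p (lev_bidisc ha.level hp)) (ha.spsh.pos p).2.2
  have h3 : ∫ p in {p | f p ≤ -δ}, A * dH f p = A * ∫ p in {p | f p ≤ -δ}, dH f p :=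
    integral_const_mul _ _
  have h4 : A * ∫ p in {p | f p ≤ -δ}, dH f p ≤ A * M :=
    mul_le_mul_of_nonneg_left ha.mass hA
  linarith

/-- Vertical energy. -/
lemma vertical (hI3 : Stmt_I3) (hT3 : Stmt_T3) (hδ : 0 < δ) (hc : IsCut δ c) (ha : Adm δ M f) :
    ∫ p, gw (eta c δ f) p ≤ 6 * M := by
  obtain ⟨_, ⟨hb, _, hb'⟩, _⟩ := hT3
  have h := hI3 δ c f f (fun p : ℂ × ℂ => ‖p.1‖ ^ 2 - 1) hδ hc ha.spsh ha.spsh hb ha.level ha.level
    (fun _ _ => le_rfl) ha.nonpos (fun p hp => by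
      have := hp.1
      have h0 := norm_nonneg p.1
      nlinarith)
  have e : (fun p => bB (fun p : ℂ × ℂ => ‖p.1‖ ^ 2 - 1) (eta c δ f) (eta c δ f) p)
      = fun p => gw (eta c δ f) p := by
    funext p
    obtain ⟨e1, e2, e3, e4⟩ := hb' p
    simp only [bB, gw, e1, e2, e3, e4]
    ring
  rw [e] at h
  refine h.trans ?_
  have := rhs_le (A := 1) hδ ha (φ := fun p : ℂ × ℂ => ‖p.1‖ ^ 2 - 1) (by fun_prop) zero_le_one
    (fun p _ => by have := sq_nonneg ‖p.1‖; linarith)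
  linarith

/-- Horizontal energy at scale `r`. -/
lemma horizontal (hI3 : Stmt_I3) (hT3 : Stmt_T3) (hδ : 0 < δ) (hM : 0 ≤ M) (hc : IsCut δ c)
    (ha : Adm δ M f) {r : ℝ} (hr : 0 < r) (hr1 : r ≤ 1) :
    ∫ p in {p : ℂ × ℂ | ‖p.2‖ ≤ r}, gz (eta c δ f) p ≤ 48 * r ^ 2 * M * (1 + Real.log (1 / r)) := by
  obtain ⟨hlog, _, _⟩ := hT3
  obtain ⟨hb, hb'⟩ := hlog r hr
  set b : ℂ × ℂ → ℝ := fun p => Real.log (‖p.2‖ ^ 2 + r ^ 2) / 2 with hbdef
  set a : ℝ := Real.log (1 + r ^ 2) / 2 with hadef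
  have hr2 : 0 < r ^ 2 := by positivity
  have hnonpos : ∀ p ∈ Bidisc, b p - a ≤ 0 := by
    intro p hp
    have h0 := norm_nonneg p.2
    have h1 : ‖p.2‖ ^ 2 ≤ 1 := by have := hp.2; nlinarith
    have : Real.log (‖p.2‖ ^ 2 + r ^ 2) ≤ Real.log (1 + r ^ 2) :=
      Real.log_le_log (by positivity) (by linarith)
    simp only [hbdef, hadef]; linarith
  have hlow : ∀ p ∈ Bidisc, -(b p - a) ≤ 1 + Real.log (1 / r) := by
    intro p _
    have h1 : Real.log (r ^ 2) ≤ Real.log (‖p.2‖ ^ 2 + r ^ 2) :=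
      Real.log_le_log hr2 (by have := sq_nonneg ‖p.2‖; linarith)
    have h2 : Real.log (1 + r ^ 2) ≤ r ^ 2 := by
      have := Real.log_le_sub_one_of_pos (x := 1 + r ^ 2) (by positivity); linarith
    have h3 : Real.log (r ^ 2) = 2 * Real.log r := by
      rw [Real.log_pow]; norm_num
    have h4 : Real.log (1 / r) = - Real.log r := by rw [one_div, Real.log_inv]
    have h5 : r ^ 2 ≤ 1 := by nlinarith
    simp only [hbdef, hadef]
    rw [h4]; linarith
  have hlogr : 0 ≤ Real.log (1 / r) := by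
    rw [one_div, Real.log_inv]
    have := Real.log_nonpos hr.le hr1
    linarith
  have h := hI3 δ c f f (fun q => b q - a) hδ hc ha.spsh ha.spsh (hb.sub_const a) ha.level ha.level
    (fun _ _ => le_rfl) ha.nonpos hnonpos
  have hrhs := rhs_le (A := 1 + Real.log (1 / r)) hδ ha (φ := fun q => b q - a)
    (hb.smooth.continuous.sub continuous_const) (by linarith) hlow
  have hη := cd_eta hc ha.spsh.smooth
  have hηs := eta_cs hδ hc ha.spsh.smooth.continuous ha.level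
  have e : ∀ p, bB (fun q => b q - a) (eta c δ f) (eta c δ f) p
      = r ^ 2 / (2 * (‖p.2‖ ^ 2 + r ^ 2) ^ 2) * gz (eta c δ f) p := by
    intro p
    obtain ⟨e1, e2, e3, e4⟩ := hb' p
    simp only [bB, gz, hww_sub_const, hzz_sub_const, hP_sub_const, hQ_sub_const]
    rw [e1, e2, e3, e4]
    ring
  simp_rw [e] at h
  -- integrability
  have hcont : Continuous (fun p : ℂ × ℂ => r ^ 2 / (2 * (‖p.2‖ ^ 2 + r ^ 2) ^ 2)
      * gz (eta c δ f) p) := by
    refine Continuous.mul ?_ (cd_gz hη).continuous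
    refine continuous_const.div (by fun_prop) (fun p => by positivity)
  have hgzs : HasCompactSupport (gz (eta c δ f)) := by
    refine hηs.mono' ?_
    intro p hp
    by_contra hh
    apply hp
    simp [gz, pd_eq_zero_of_nmem _ hh]
  have hint : Integrable (fun p : ℂ × ℂ => r ^ 2 / (2 * (‖p.2‖ ^ 2 + r ^ 2) ^ 2)
      * gz (eta c δ f) p) := integrable_of_cs hcont hgzs.mul_left
  have hms : MeasurableSet {p : ℂ × ℂ | ‖p.2‖ ≤ r} :=
    (isClosed_le (by fun_prop) continuous_const).measurableSet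
  have h6 : ∫ p in {p : ℂ × ℂ | ‖p.2‖ ≤ r}, (1 / (8 * r ^ 2)) * gz (eta c δ f) p ≤
      ∫ p, r ^ 2 / (2 * (‖p.2‖ ^ 2 + r ^ 2) ^ 2) * gz (eta c δ f) p := by
    refine le_trans ?_ (setIntegral_le_integral (s := {p : ℂ × ℂ | ‖p.2‖ ≤ r}) hint ?_)
    · refine setIntegral_mono_on ?_ hint.integrableOn hms ?_
      · exact ((integrable_of_cs (cd_gz hη).continuous hgzs).const_mul _).integrableOn
      · intro p hp
        refine mul_le_mul_of_nonneg_right ?_ (gz_nonneg _ _)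
        have h0 := norm_nonneg p.2
        have hp' : ‖p.2‖ ≤ r := hp
        have h1 : ‖p.2‖ ^ 2 ≤ r ^ 2 := by nlinarith
        rw [div_le_div_iff₀ (by positivity) (by positivity)]
        have h2 : (‖p.2‖ ^ 2 + r ^ 2) ^ 2 ≤ (2 * r ^ 2) ^ 2 :=
          pow_le_pow_left₀ (by positivity) (by linarith) 2
        nlinarith
    · refine Filter.Eventually.of_forall (fun p => ?_)
      exact mul_nonneg (by positivity) (gz_nonneg _ _)
  rw [integral_const_mul] at h6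
  have h7 : (1 / (8 * r ^ 2)) * ∫ p in {p : ℂ × ℂ | ‖p.2‖ ≤ r}, gz (eta c δ f) p
      ≤ 6 * ((1 + Real.log (1 / r)) * M) := h6.trans (h.trans hrhs)
  have h8 : (1 / (8 * r ^ 2)) * ∫ p in {p : ℂ × ℂ | ‖p.2‖ ≤ r}, gz (eta c δ f) p
      = (∫ p in {p : ℂ × ℂ | ‖p.2‖ ≤ r}, gz (eta c δ f) p) / (8 * r ^ 2) := by ring
  rw [h8, div_le_iff₀ (by positivity)] at h7
  linarith

end CMA
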