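import Pool.Agent.Work.MP_4eb3f9_an_helper6.FA

/-!
# Block F, part B: bump functions and the logarithmic weight
-/

open Complex MeasureTheory Filter Topology
open scoped ContDiff

namespace CMA

structure IsBump (β : ℂ → ℝ) : Prop where
  smooth : ContDiff ℝ ∞ β
  nonneg : ∀ z, 0 ≤ β z
  le_one : ∀ z, β z ≤ 1
  one : ∀ z, ‖z‖ ≤ 3 / 10 → β z = 1
  zero : ∀ z, 9 / 20 ≤ ‖z‖ → β z = 0

lemma exists_bump : ∃ β, IsBump β := by
  let b : ContDiffBump (0 : ℂ) := ⟨3 / 10, 9 / 20, by norm_num, by norm_num⟩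
  refine ⟨b, b.contDiff, fun z => b.nonneg, fun z => b.le_one, fun z hz => ?_, fun z hz => ?_⟩
  · exact b.one_of_mem_closedBall (by simpa using hz)
  · exact b.zero_of_le_dist (by simpa using hz)

lemma IsBump.cs {β : ℂ → ℝ} (h : IsBump β) : HasCompactSupport β := by
  refine HasCompactSupport.of_support_subset_isCompact (isCompact_closedBall (0 : ℂ) (9 / 20)) ?_
  intro z hz
  by_contra hh
  refine hz (h.zero z ?_)
  simp only [Metric.mem_closedBall, dist_zero_right, not_le] at hh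
  exact hh.le

/-! ### Functions of one variable -/

lemma pd_fst {g : ℂ → ℝ} (hg : ContDiff ℝ ∞ g) (k : Fin 4) :
    pd k (fun q : ℂ × ℂ => g q.1) = fun q => (fun z => fderiv ℝ g z (dir k).1) q.1 := by
  funext q
  have h1 : HasFDerivAt g (fderiv ℝ g q.1) q.1 := (hg.differentiable (by simp) _).hasFDerivAt
  have h2 := (h1.comp q (hasFDerivAt_fst (𝕜 := ℝ) (p := q))).fderiv
  have h3 : fderiv ℝ (fun q : ℂ × ℂ => g q.1) q = (fderiv ℝ g q.1).comp
    (ContinuousLinearMap.fst ℝ ℂ ℂ) := h2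
  simp only [pd, h3]
  rfl

lemma pd_snd {g : ℂ → ℝ} (hg : ContDiff ℝ ∞ g) (k : Fin 4) :
    pd k (fun q : ℂ × ℂ => g q.2) = fun q => (fun z => fderiv ℝ g z (dir k).2) q.2 := by
  funext q
  have h1 : HasFDerivAt g (fderiv ℝ g q.2) q.2 := (hg.differentiable (by simp) _).hasFDerivAt
  have h2 := (h1.comp q (hasFDerivAt_snd (𝕜 := ℝ) (p := q))).fderiv
  have h3 : fderiv ℝ (fun q : ℂ × ℂ => g q.2) q = (fderiv ℝ g q.2).comp
    (ContinuousLinearMap.snd ℝ ℂ ℂ) := h2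
  simp only [pd, h3]
  rfl

lemma cd_dirderiv {g : ℂ → ℝ} (hg : ContDiff ℝ ∞ g) (v : ℂ) :
    ContDiff ℝ ∞ (fun z => fderiv ℝ g z v) :=
  (hg.fderiv_right (m := ∞) (by simp)).clm_apply contDiff_const

lemma cs_dirderiv {g : ℂ → ℝ} (hg : HasCompactSupport g) (v : ℂ) :
    HasCompactSupport (fun z => fderiv ℝ g z v) := by
  refine (hg.fderiv (𝕜 := ℝ)).mono' ?_
  intro q hq
  refine subset_tsupport _ ?_
  intro h0
  exact hq (by simp [h0])

lemma bounded_cs {g : ℂ → ℝ} (hg : Continuous g) (hs : HasCompactSupport g) :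
    ∃ B : ℝ, 0 ≤ B ∧ ∀ z, |g z| ≤ B := by
  obtain ⟨B, hB⟩ := hs.exists_bound_of_continuous hg
  exact ⟨B, (norm_nonneg _).trans (hB 0), fun z => hB z⟩

/-- `gz` and `hzz` of a compactly supported function of `z` are bounded. -/
lemma fst_bounds {g : ℂ → ℝ} (hg : ContDiff ℝ ∞ g) (hs : HasCompactSupport g) :
    ∃ B : ℝ, 0 ≤ B ∧ (∀ p : ℂ × ℂ, gz (fun q : ℂ × ℂ => g q.1) p ≤ B) ∧
      (∀ p : ℂ × ℂ, |hzz (fun q : ℂ × ℂ => g q.1) p| ≤ B) := by
  obtain ⟨B0, h0, hB0⟩ := bounded_cs (cd_dirderiv hg (dir 0).1).continuous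
    (cs_dirderiv hs (dir 0).1)
  obtain ⟨B1, h1, hB1⟩ := bounded_cs (cd_dirderiv hg (dir 1).1).continuous
    (cs_dirderiv hs (dir 1).1)
  obtain ⟨B2, h2, hB2⟩ := bounded_cs
    (cd_dirderiv (cd_dirderiv hg (dir 0).1) (dir 0).1).continuous
    (cs_dirderiv (cs_dirderiv hs (dir 0).1) (dir 0).1)
  obtain ⟨B3, h3, hB3⟩ := bounded_cs
    (cd_dirderiv (cd_dirderiv hg (dir 1).1) (dir 1).1).continuous
    (cs_dirderiv (cs_dirderiv hs (dir 1).1) (dir 1).1)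
  refine ⟨B0 ^ 2 + B1 ^ 2 + B2 + B3, by positivity, fun p => ?_, fun p => ?_⟩
  · have e0 := hB0 p.1
    have e1 := hB1 p.1
    simp only [gz, pd_fst hg]
    have f0 : (fderiv ℝ g p.1 (dir 0).1) ^ 2 ≤ B0 ^ 2 := sq_le_sq' (abs_le.1 e0).1 (abs_le.1 e0).2
    have f1 : (fderiv ℝ g p.1 (dir 1).1) ^ 2 ≤ B1 ^ 2 := sq_le_sq' (abs_le.1 e1).1 (abs_le.1 e1).2
    have := sq_nonneg B0
    have := sq_nonneg B1
    linarith
  · have e2 := hB2 p.1
    have e3 := hB3 p.1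
    simp only [hzz, pd_fst hg, pd_fst (cd_dirderiv hg (dir 0).1),
      pd_fst (cd_dirderiv hg (dir 1).1)]
    have := sq_nonneg B0
    have := sq_nonneg B1
    rw [abs_le] at e2 e3 ⊢
    constructor <;> linarith [e2.1, e2.2, e3.1, e3.2]

/-! ### The logarithmic weight -/

/-- `∑_{k<K} β(2^k w)`. -/
noncomputable def hhat (β : ℂ → ℝ) (K : ℕ) (w : ℂ) : ℝ :=
  ∑ k ∈ Finset.range K, β ((2 : ℝ) ^ k • w)

/-- The dyadic shell carrying the `k`-th gradient. -/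
def shell (k : ℕ) : Set ℂ := {w | 3 / 10 ≤ 2 ^ k * ‖w‖ ∧ 2 ^ k * ‖w‖ ≤ 9 / 20}

lemma cd_scale {β : ℂ → ℝ} (hβ : ContDiff ℝ ∞ β) (k : ℕ) :
    ContDiff ℝ ∞ (fun w : ℂ => β ((2 : ℝ) ^ k • w)) :=
  hβ.comp (contDiff_const_smul _)

lemma cd_hhat {β : ℂ → ℝ} (hβ : ContDiff ℝ ∞ β) (K : ℕ) : ContDiff ℝ ∞ (hhat β K) := by
  unfold hhat
  exact ContDiff.sum (fun k _ => cd_scale hβ k)

lemma norm_scale (k : ℕ) (w : ℂ) : ‖(2 : ℝ) ^ k • w‖ = 2 ^ k * ‖w‖ := by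
  rw [norm_smul, norm_pow]; norm_num

variable {β : ℂ → ℝ}

lemma hhat_nonneg (h : IsBump β) (K : ℕ) (w : ℂ) : 0 ≤ hhat β K w :=
  Finset.sum_nonneg (fun _ _ => h.nonneg _)

lemma hhat_le (h : IsBump β) (K : ℕ) (w : ℂ) : hhat β K w ≤ K := by
  unfold hhat
  calc ∑ k ∈ Finset.range K, β ((2 : ℝ) ^ k • w) ≤ ∑ k ∈ Finset.range K, (1 : ℝ) :=
        Finset.sum_le_sum (fun k _ => h.le_one _)
    _ = K := by simp

lemma hhat_eq (h : IsBump β) (K : ℕ) {w : ℂ} (hw : 2 ^ K * ‖w‖ ≤ 1 / 2) : hhat β K w = K := by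
  unfold hhat
  have : ∀ k ∈ Finset.range K, β ((2 : ℝ) ^ k • w) = 1 := by
    intro k hk
    refine h.one _ ?_
    rw [norm_scale]
    have h1 : k + 1 ≤ K := Finset.mem_range.1 hk
    have h2 : (2 : ℝ) ^ (k + 1) ≤ 2 ^ K := pow_le_pow_right₀ (by norm_num) h1
    have h3 : (2 : ℝ) ^ (k + 1) * ‖w‖ ≤ 1 / 2 :=
      (mul_le_mul_of_nonneg_right h2 (norm_nonneg _)).trans hw
    rw [pow_succ] at h3
    nlinarith
  rw [Finset.sum_congr rfl this]
  simp

lemma hhat_le_of (h : IsBump β) (K k₀ : ℕ) {w : ℂ} (hw : 1 ≤ 2 ^ k₀ * ‖w‖) :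
    hhat β K w ≤ k₀ := by
  unfold hhat
  have h1 : ∀ k ∈ Finset.range K, β ((2 : ℝ) ^ k • w) ≤ if k < k₀ then 1 else 0 := by
    intro k _
    split_ifs with hk
    · exact h.le_one _
    · have h2 : (2 : ℝ) ^ k₀ ≤ 2 ^ k := pow_le_pow_right₀ (by norm_num) (not_lt.1 hk)
      have h3 := mul_le_mul_of_nonneg_right h2 (norm_nonneg w)
      rw [h.zero]
      rw [norm_scale]
      linarith
  refine (Finset.sum_le_sum h1).trans ?_
  rw [← Finset.sum_filter, Finset.sum_const, nsmul_eq_mul, mul_one]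
  have : (Finset.filter (fun k => k < k₀) (Finset.range K)).card ≤ k₀ := by
    calc (Finset.filter (fun k => k < k₀) (Finset.range K)).card ≤ (Finset.range k₀).card :=
          Finset.card_le_card (fun k hk => by
            simp only [Finset.mem_filter, Finset.mem_range] at hk ⊢; exact hk.2)
      _ = k₀ := Finset.card_range _
  exact_mod_cast this

lemma hhat_zero (h : IsBump β) (K : ℕ) {w : ℂ} (hw : 9 / 20 ≤ ‖w‖) : hhat β K w = 0 := by
  unfold hhat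
  refine Finset.sum_eq_zero (fun k _ => h.zero _ ?_)
  rw [norm_scale]
  have h2 : (1 : ℝ) ≤ 2 ^ k := one_le_pow₀ (by norm_num)
  nlinarith [norm_nonneg w]

lemma hhat_cs (h : IsBump β) (K : ℕ) : HasCompactSupport (hhat β K) := by
  refine HasCompactSupport.of_support_subset_isCompact (isCompact_closedBall (0 : ℂ) (9 / 20)) ?_
  intro z hz
  by_contra hh
  refine hz (hhat_zero h K ?_)
  simp only [Metric.mem_closedBall, dist_zero_right, not_le] at hh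
  exact hh.le

lemma fderiv_scale (h : ContDiff ℝ ∞ β) (k : ℕ) (w v : ℂ) :
    fderiv ℝ (fun w : ℂ => β ((2 : ℝ) ^ k • w)) w v
      = 2 ^ k * fderiv ℝ β ((2 : ℝ) ^ k • w) v := by
  have h1 : HasFDerivAt β (fderiv ℝ β ((2 : ℝ) ^ k • w)) ((2 : ℝ) ^ k • w) :=
    (h.differentiable (by simp) _).hasFDerivAt
  have h0 : HasFDerivAt (fun w : ℂ => (2 : ℝ) ^ k • w)
      ((2 : ℝ) ^ k • ContinuousLinearMap.id ℝ ℂ) w :=
    ((2 : ℝ) ^ k • ContinuousLinearMap.id ℝ ℂ).hasFDerivAt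
  have h2 := (h1.comp w h0).fderiv
  have h3 : fderiv ℝ (fun w : ℂ => β ((2 : ℝ) ^ k • w)) w = (fderiv ℝ β ((2 : ℝ) ^ k • w)).comp
    ((2 : ℝ) ^ k • ContinuousLinearMap.id ℝ ℂ) := h2
  rw [h3]
  simp

lemma fderiv_bump_zero (h : IsBump β) {u : ℂ} (hu : ‖u‖ < 3 / 10 ∨ 9 / 20 < ‖u‖) :
    fderiv ℝ β u = 0 := by
  rcases hu with hu | hu
  · have : β =ᶠ[𝓝 u] fun _ => (1 : ℝ) := by
      filter_upwards [(isOpen_lt continuous_norm continuous_const).mem_nhds hu] with q hq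
      exact h.one q (le_of_lt hq)
    rw [this.fderiv_eq]; simp
  · have : β =ᶠ[𝓝 u] fun _ => (0 : ℝ) := by
      filter_upwards [(isOpen_lt continuous_const continuous_norm).mem_nhds hu] with q hq
      exact h.zero q (le_of_lt hq)
    rw [this.fderiv_eq]; simp

lemma shell_disjoint {k l : ℕ} {w : ℂ} (hk : w ∈ shell k) (hl : w ∈ shell l) : k = l := by
  by_contra hne
  wlog hlt : k < l generalizing k l
  · exact this hl hk (Ne.symm hne) (lt_of_le_of_ne (not_lt.1 hlt) (Ne.symm hne))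
  have h1 : (2 : ℝ) ^ (k + 1) ≤ 2 ^ l := pow_le_pow_right₀ (by norm_num) hlt
  have h2 := mul_le_mul_of_nonneg_right h1 (norm_nonneg w)
  rw [pow_succ] at h2
  have h3 := hk.1
  have h4 := hl.2
  nlinarith

/-- The gradient of the logarithmic weight. -/
lemma gw_hhat (h : IsBump β) : ∃ B : ℝ, 0 ≤ B ∧ ∀ (K : ℕ) (p : ℂ × ℂ),
    gw (fun q : ℂ × ℂ => hhat β K q.2) p ≤
      B * ∑ k ∈ Finset.range K, (4 : ℝ) ^ k * (shell k).indicator (fun _ => (1 : ℝ)) p.2 := by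
  obtain ⟨B2, h2, hB2⟩ := bounded_cs (cd_dirderiv h.smooth (dir 2).2).continuous
    (cs_dirderiv h.cs (dir 2).2)
  obtain ⟨B3, h3, hB3⟩ := bounded_cs (cd_dirderiv h.smooth (dir 3).2).continuous
    (cs_dirderiv h.cs (dir 3).2)
  refine ⟨B2 ^ 2 + B3 ^ 2, by positivity, fun K p => ?_⟩
  have hpd : ∀ j : Fin 4, pd j (fun q : ℂ × ℂ => hhat β K q.2) p
      = ∑ k ∈ Finset.range K, 2 ^ k * fderiv ℝ β ((2 : ℝ) ^ k • p.2) (dir j).2 := by
    intro j
    rw [pd_snd (cd_hhat h.smooth K)]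
    have e : fderiv ℝ (hhat β K) p.2 = ∑ k ∈ Finset.range K,
        fderiv ℝ (fun w : ℂ => β ((2 : ℝ) ^ k • w)) p.2 := by
      have : hhat β K = fun w => ∑ k ∈ Finset.range K, β ((2 : ℝ) ^ k • w) := rfl
      rw [this, fderiv_fun_sum]
      exact fun k _ => (cd_scale h.smooth k).differentiable (by simp) _
    simp only [e, FunLike.coe_sum, Finset.sum_apply]
    exact Finset.sum_congr rfl (fun k _ => fderiv_scale h.smooth k _ _)
  by_cases hex : ∃ k₁ ∈ Finset.range K, p.2 ∈ shell k₁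
  · obtain ⟨k₁, hk₁, hs⟩ := hex
    have hz : ∀ k ∈ Finset.range K, k ≠ k₁ → fderiv ℝ β ((2 : ℝ) ^ k • p.2) = 0 := by
      intro k _ hne
      refine fderiv_bump_zero h ?_
      by_contra hh
      push Not at hh
      rw [norm_scale] at hh
      exact hne (shell_disjoint ⟨hh.1, hh.2⟩ hs)
    have hsum : ∀ j : Fin 4, pd j (fun q : ℂ × ℂ => hhat β K q.2) p
        = 2 ^ k₁ * fderiv ℝ β ((2 : ℝ) ^ k₁ • p.2) (dir j).2 := by
      intro j
      rw [hpd j, Finset.sum_eq_single_of_mem k₁ hk₁]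
      intro k hk hne
      rw [hz k hk hne]; simp
    have hle : (4 : ℝ) ^ k₁ ≤ ∑ k ∈ Finset.range K,
        (4 : ℝ) ^ k * (shell k).indicator (fun _ => (1 : ℝ)) p.2 := by
      have := Finset.single_le_sum (f := fun k => (4 : ℝ) ^ k *
        (shell k).indicator (fun _ => (1 : ℝ)) p.2) (s := Finset.range K)
        (fun k _ => mul_nonneg (by positivity) (Set.indicator_nonneg (fun _ _ => zero_le_one) _))
        hk₁
      simpa [Set.indicator_of_mem hs] using this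
    have e2 := hB2 ((2 : ℝ) ^ k₁ • p.2)
    have e3 := hB3 ((2 : ℝ) ^ k₁ • p.2)
    have f2 : (fderiv ℝ β ((2 : ℝ) ^ k₁ • p.2) (dir 2).2) ^ 2 ≤ B2 ^ 2 :=
      sq_le_sq' (abs_le.1 e2).1 (abs_le.1 e2).2
    have f3 : (fderiv ℝ β ((2 : ℝ) ^ k₁ • p.2) (dir 3).2) ^ 2 ≤ B3 ^ 2 :=
      sq_le_sq' (abs_le.1 e3).1 (abs_le.1 e3).2
    have hp4 : ((2 : ℝ) ^ k₁) ^ 2 = 4 ^ k₁ := by
      rw [← pow_mul, mul_comm, pow_mul]; norm_num
    have : gw (fun q : ℂ × ℂ => hhat β K q.2) p ≤ (B2 ^ 2 + B3 ^ 2) * 4 ^ k₁ := by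
      simp only [gw, hsum]
      rw [mul_pow, mul_pow, hp4]
      have : (0 : ℝ) < 4 ^ k₁ := by positivity
      nlinarith [sq_nonneg B2, sq_nonneg B3]
    exact this.trans (mul_le_mul_of_nonneg_left hle (by positivity))
  · push Not at hex
    have hz : ∀ j : Fin 4, pd j (fun q : ℂ × ℂ => hhat β K q.2) p = 0 := by
      intro j
      rw [hpd j]
      refine Finset.sum_eq_zero (fun k hk => ?_)
      rw [fderiv_bump_zero h]
      · simp
      · by_contra hh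
        push Not at hh
        rw [norm_scale] at hh
        exact hex k hk ⟨hh.1, hh.2⟩
    have : gw (fun q : ℂ × ℂ => hhat β K q.2) p = 0 := by
      simp [gw, hz]
    rw [this]
    refine mul_nonneg (by positivity) (Finset.sum_nonneg (fun k _ => ?_))
    exact mul_nonneg (by positivity) (Set.indicator_nonneg (fun _ _ => zero_le_one) _)

/-- The gradient of the weight vanishes for `2^K |w| < 3/5`. -/
lemma pd_hhat_zero (h : IsBump β) (K : ℕ) (j : Fin 4) {p : ℂ × ℂ} (hp : 2 ^ K * ‖p.2‖ ≤ 1 / 2) :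
    pd j (fun q : ℂ × ℂ => hhat β K q.2) p = 0 := by
  rw [pd_snd (cd_hhat h.smooth K)]
  have e : fderiv ℝ (hhat β K) p.2 = ∑ k ∈ Finset.range K,
      fderiv ℝ (fun w : ℂ => β ((2 : ℝ) ^ k • w)) p.2 := by
    have : hhat β K = fun w => ∑ k ∈ Finset.range K, β ((2 : ℝ) ^ k • w) := rfl
    rw [this, fderiv_fun_sum]
    exact fun k _ => (cd_scale h.smooth k).differentiable (by simp) _
  simp only [e, FunLike.coe_sum, Finset.sum_apply]
  refine Finset.sum_eq_zero (fun k hk => ?_)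
  rw [fderiv_scale h.smooth k, fderiv_bump_zero h]
  · simp
  · left
    rw [norm_scale]
    have h1 : k + 1 ≤ K := Finset.mem_range.1 hk
    have h2 : (2 : ℝ) ^ (k + 1) ≤ 2 ^ K := pow_le_pow_right₀ (by norm_num) h1
    have h3 : (2 : ℝ) ^ (k + 1) * ‖p.2‖ ≤ 1 / 2 :=
      (mul_le_mul_of_nonneg_right h2 (norm_nonneg _)).trans hp
    rw [pow_succ] at h3
    nlinarith

end CMA
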