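import Pool.Agent.Work.MP_4eb3f9_an_helper6.FB

/-!
# Block F, part C: error terms
-/

open Complex MeasureTheory Filter Topology
open scoped ContDiff

namespace CMA

/-- The annulus used in `annMean`. -/
def ann (k : ℕ) : Set (ℂ × ℂ) :=
  {p : ℂ × ℂ | ‖p.1‖ ≤ 1 / 2 ∧ (1 / 2) ^ k ≤ ‖p.2‖ ∧ ‖p.2‖ ≤ 2 * (1 / 2) ^ k}

lemma annMean_def (k : ℕ) (f : ℂ × ℂ → ℝ) : annMean k f = 4 ^ k * ∫ p in ann k, f p := rfl

lemma isClosed_ann (k : ℕ) : IsClosed (ann k) := by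
  have : ann k = {p : ℂ × ℂ | ‖p.1‖ ≤ 1 / 2} ∩ ({p : ℂ × ℂ | (1 / 2) ^ k ≤ ‖p.2‖} ∩
      {p : ℂ × ℂ | ‖p.2‖ ≤ 2 * (1 / 2) ^ k}) := by
    ext p; simp [ann]
  rw [this]
  exact (isClosed_le (by fun_prop) continuous_const).inter
    ((isClosed_le continuous_const (by fun_prop)).inter (isClosed_le (by fun_prop) continuous_const))

lemma ann_subset (k : ℕ) : ann k ⊆ PD (1 / 2) (2 * (1 / 2) ^ k) := fun _ hp => ⟨hp.1, hp.2.2⟩

lemma isCompact_ann (k : ℕ) : IsCompact (ann k) :=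
  (isCompact_PD _ _).of_isClosed_subset (isClosed_ann k) (ann_subset k)

lemma volume_PD {a b : ℝ} (ha : 0 ≤ a) (hb : 0 ≤ b) :
    (volume (PD a b)).toReal = Real.pi ^ 2 * a ^ 2 * b ^ 2 := by
  have : PD a b = (Metric.closedBall (0 : ℂ) a) ×ˢ (Metric.closedBall (0 : ℂ) b) := by
    ext p; simp [PD]
  rw [this, Measure.volume_eq_prod, Measure.prod_prod, Complex.volume_closedBall,
    Complex.volume_closedBall]
  simp only [ENNReal.toReal_mul, ENNReal.toReal_pow, ENNReal.toReal_ofReal ha,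
    ENNReal.toReal_ofReal hb, ENNReal.coe_toReal, NNReal.coe_real_pi]
  ring

lemma volume_ann_le (k : ℕ) : (volume (ann k)).toReal ≤ Real.pi ^ 2 * (1 / 4) ^ k := by
  have h1 : (volume (ann k)).toReal ≤ (volume (PD (1 / 2) (2 * (1 / 2) ^ k))).toReal :=
    ENNReal.toReal_mono (isCompact_PD _ _).measure_lt_top.ne (measure_mono (ann_subset k))
  rw [volume_PD (by norm_num) (by positivity)] at h1
  refine h1.trans (le_of_eq ?_)
  have : ((1 : ℝ) / 4) ^ k = ((1 / 2) ^ k) ^ 2 := by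
    rw [← pow_mul, mul_comm, pow_mul]; norm_num
  rw [this]; ring

lemma intOn_of_subset {F : ℂ × ℂ → ℝ} (hF : Continuous F) {T : Set (ℂ × ℂ)} {a b : ℝ}
    (hT : T ⊆ PD a b) : IntegrableOn F T :=
  (hF.continuousOn.integrableOn_compact (isCompact_PD a b)).mono_set hT

lemma annMean_zero {η : ℂ × ℂ → ℝ} (hs : ∀ p, η p ≠ 0 → p ∈ Bidisc) : annMean 0 η = 0 := by
  rw [annMean_def]
  have : ∫ p in ann 0, η p = 0 := by
    refine setIntegral_eq_zero_of_forall_eq_zero (fun p hp => ?_)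
    by_contra hh
    have h1 := (hs p hh).2
    have h2 : (1 / 2 : ℝ) ^ 0 ≤ ‖p.2‖ := hp.2.1
    rw [pow_zero] at h2
    linarith
  rw [this, mul_zero]

/-- Growth of the annulus means of the truncation. -/
lemma annMean_bound {C M ε : ℝ} (hC : 0 ≤ C)
    (hV : ∀ (f : ℂ × ℂ → ℝ) (k l : ℕ), ContDiff ℝ ∞ f → k ≤ l →
      annMean l f ≤ annMean k f +
        C * Real.sqrt (l - k) * Real.sqrt (∫ p in PD (1 / 2) (2 * (1 / 2) ^ k), gw f p))
    {η : ℂ × ℂ → ℝ} (hη : ContDiff ℝ ∞ η) (hcs : HasCompactSupport η)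
    (hs : ∀ p, η p ≠ 0 → p ∈ Bidisc) (hvert : ∫ p, gw η p ≤ 6 * M) (k₀ : ℕ)
    (hε : ∫ p in PD (1 / 2) ((1 / 2) ^ k₀), gw η p ≤ ε) (k : ℕ) :
    annMean k η ≤ C * Real.sqrt (k₀ + 1) * Real.sqrt (6 * M) + C * Real.sqrt k * Real.sqrt ε := by
  have hgws : HasCompactSupport (gw η) := by
    refine hcs.mono' ?_
    intro p hp
    by_contra hh
    apply hp
    simp [gw, pd_eq_zero_of_nmem _ hh]
  have hint : Integrable (gw η) := integrable_of_cs (cd_gw hη).continuous hgws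
  have h0 : ∀ j : ℕ, annMean j η ≤ C * Real.sqrt j * Real.sqrt (6 * M) := by
    intro j
    have h1 := hV η 0 j hη (Nat.zero_le _)
    rw [annMean_zero hs, zero_add] at h1
    refine h1.trans ?_
    have h2 : ∫ p in PD (1 / 2) (2 * (1 / 2) ^ 0), gw η p ≤ 6 * M :=
      (setIntegral_le_integral hint (Filter.Eventually.of_forall (fun p => gw_nonneg _ _))).trans
        hvert
    have h3 : Real.sqrt (j - ((0 : ℕ) : ℝ)) = Real.sqrt j := by simp
    rw [h3]
    exact mul_le_mul_of_nonneg_left (Real.sqrt_le_sqrt h2) (by positivity)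
  by_cases hk : k ≤ k₀ + 1
  · refine (h0 k).trans ?_
    have : Real.sqrt k ≤ Real.sqrt (k₀ + 1) := Real.sqrt_le_sqrt (by exact_mod_cast hk)
    have h4 : 0 ≤ C * Real.sqrt k * Real.sqrt ε := by positivity
    have h5 : C * Real.sqrt k * Real.sqrt (6 * M) ≤ C * Real.sqrt (k₀ + 1) * Real.sqrt (6 * M) :=
      mul_le_mul_of_nonneg_right (mul_le_mul_of_nonneg_left this hC) (Real.sqrt_nonneg _)
    linarith
  · have hk' : k₀ + 1 ≤ k := (not_le.1 hk).le
    have h1 := hV η (k₀ + 1) k hη hk'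
    have h2 := h0 (k₀ + 1)
    have e1 : (2 : ℝ) * (1 / 2) ^ (k₀ + 1) = (1 / 2) ^ k₀ := by rw [pow_succ]; ring
    rw [e1] at h1
    push_cast at h1 h2
    have h3 : Real.sqrt (∫ p in PD (1 / 2) ((1 / 2) ^ k₀), gw η p) ≤ Real.sqrt ε :=
      Real.sqrt_le_sqrt hε
    have h4 : Real.sqrt ((k : ℝ) - (k₀ + 1)) ≤ Real.sqrt k := Real.sqrt_le_sqrt (by linarith [
      (by positivity : (0 : ℝ) ≤ (k₀ : ℝ))])
    have h5 : C * Real.sqrt ((k : ℝ) - (k₀ + 1)) * Real.sqrt (∫ p in PD (1 / 2) ((1 / 2) ^ k₀),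
        gw η p) ≤ C * Real.sqrt k * Real.sqrt ε :=
      mul_le_mul (mul_le_mul_of_nonneg_left h4 hC) h3 (Real.sqrt_nonneg _) (by positivity)
    linarith

/-- The weight `gw hhat` against a nonnegative function. -/
lemma weight_le {β : ℂ → ℝ} (hβ : IsBump β) {B : ℝ}
    (hBw : ∀ (K : ℕ) (p : ℂ × ℂ), gw (fun q : ℂ × ℂ => hhat β K q.2) p ≤
      B * ∑ k ∈ Finset.range K, (4 : ℝ) ^ k * (shell k).indicator (fun _ => (1 : ℝ)) p.2)
    (K : ℕ) {T : Set (ℂ × ℂ)} (hT : T ⊆ PD (1 / 2) (1 / 2)) (hTm : MeasurableSet T)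
    {G : ℂ × ℂ → ℝ} (hG : Continuous G) (hG0 : ∀ p ∈ T, 0 ≤ G p) :
    ∫ p in T, gw (fun q : ℂ × ℂ => hhat β K q.2) p * G p ≤
      B * ∑ k ∈ Finset.range K, (4 : ℝ) ^ k * ∫ p in T ∩ {p : ℂ × ℂ | p.2 ∈ shell k}, G p := by
  have hcl : ∀ k, IsClosed {p : ℂ × ℂ | p.2 ∈ shell k} := by
    intro k
    have : {p : ℂ × ℂ | p.2 ∈ shell k} = {p : ℂ × ℂ | 3 / 10 ≤ 2 ^ k * ‖p.2‖} ∩
        {p : ℂ × ℂ | 2 ^ k * ‖p.2‖ ≤ 9 / 20} := by ext p; simp [shell]
    rw [this]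
    exact (isClosed_le continuous_const (by fun_prop)).inter
      (isClosed_le (by fun_prop) continuous_const)
  have hGi : IntegrableOn G T := intOn_of_subset hG hT
  have hgw : ContDiff ℝ ∞ (fun q : ℂ × ℂ => hhat β K q.2) :=
    (cd_hhat hβ.smooth K).comp contDiff_snd
  have e : ∀ k, ∫ p in T ∩ {p : ℂ × ℂ | p.2 ∈ shell k}, G p =
      ∫ p in T, (shell k).indicator (fun _ => (1 : ℝ)) p.2 * G p := by
    intro k
    rw [← setIntegral_indicator (hcl k).measurableSet]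
    refine setIntegral_congr_fun hTm (fun p _ => ?_)
    by_cases hp : p.2 ∈ shell k
    · simp [Set.indicator, hp]
    · simp [Set.indicator, hp]
  have hi : ∀ k, IntegrableOn (fun p : ℂ × ℂ => (shell k).indicator (fun _ => (1 : ℝ)) p.2 * G p)
      T := by
    intro k
    have := hGi.indicator (hcl k).measurableSet
    refine this.congr (Filter.Eventually.of_forall (fun p => ?_))
    by_cases hp : p.2 ∈ shell k
    · simp [Set.indicator, hp]
    · simp [Set.indicator, hp]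
  have e2 : B * ∑ k ∈ Finset.range K, (4 : ℝ) ^ k * ∫ p in T ∩ {p : ℂ × ℂ | p.2 ∈ shell k}, G p
      = ∫ p in T, B * ∑ k ∈ Finset.range K, (4 : ℝ) ^ k *
        ((shell k).indicator (fun _ => (1 : ℝ)) p.2 * G p) := by
    rw [integral_const_mul, integral_finsetSum]
    · congr 1
      refine Finset.sum_congr rfl (fun k _ => ?_)
      rw [e k, integral_const_mul]
    · intro k _
      exact (hi k).const_mul _
  rw [e2]
  refine setIntegral_mono_on ?_ ?_ hTm ?_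
  · exact intOn_of_subset ((cd_gw hgw).continuous.mul hG) hT
  · exact (integrable_finsetSum _ (fun k _ => (hi k).const_mul _)).const_mul _
  · intro p hp
    calc gw (fun q : ℂ × ℂ => hhat β K q.2) p * G p
        ≤ (B * ∑ k ∈ Finset.range K, (4 : ℝ) ^ k *
          (shell k).indicator (fun _ => (1 : ℝ)) p.2) * G p :=
          mul_le_mul_of_nonneg_right (hBw K p) (hG0 p hp)
      _ = _ := by
          rw [mul_assoc, Finset.sum_mul]
          congr 1
          refine Finset.sum_congr rfl (fun k _ => ?_)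
          ring

lemma shell_subset_ann (k : ℕ) {T : Set (ℂ × ℂ)} (hT : T ⊆ PD (1 / 2) (1 / 2)) :
    T ∩ {p : ℂ × ℂ | p.2 ∈ shell k} ⊆ ann (k + 2) := by
  rintro p ⟨hp, hs⟩
  have hs1 : 3 / 10 ≤ 2 ^ k * ‖p.2‖ := hs.1
  have hs2 : 2 ^ k * ‖p.2‖ ≤ 9 / 20 := hs.2
  have h2 : (0 : ℝ) < 2 ^ k := by positivity
  have e : (2 : ℝ) ^ k * (1 / 2) ^ k = 1 := by rw [← mul_pow]; norm_num
  refine ⟨(hT hp).1, ?_, ?_⟩
  · rw [pow_add]
    have : (2 : ℝ) ^ k * ((1 / 2) ^ k * (1 / 2) ^ 2) ≤ 2 ^ k * ‖p.2‖ := by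
      rw [← mul_assoc, e]; norm_num; linarith
    exact le_of_mul_le_mul_left this h2
  · rw [pow_add]
    have : (2 : ℝ) ^ k * ‖p.2‖ ≤ 2 ^ k * (2 * ((1 / 2) ^ k * (1 / 2) ^ 2)) := by
      have : (2 : ℝ) ^ k * (2 * ((1 / 2) ^ k * (1 / 2) ^ 2)) = 2 * (2 ^ k * (1 / 2) ^ k) *
        (1 / 2) ^ 2 := by ring
      rw [this, e]; norm_num; linarith
    exact le_of_mul_le_mul_left this h2

/-- The second Cauchy-Schwarz factor. -/
lemma second_factor {β : ℂ → ℝ} (hβ : IsBump β) {B : ℝ} (hB : 0 ≤ B)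
    (hBw : ∀ (K : ℕ) (p : ℂ × ℂ), gw (fun q : ℂ × ℂ => hhat β K q.2) p ≤
      B * ∑ k ∈ Finset.range K, (4 : ℝ) ^ k * (shell k).indicator (fun _ => (1 : ℝ)) p.2)
    {δ A : ℝ} (hδ : 0 < δ) (K : ℕ) {f η : ℂ × ℂ → ℝ} (hf : Continuous f) (hη : Continuous η)
    (hη0 : ∀ p, 0 ≤ η p) (hfη : ∀ p, -f p - 4 * δ ≤ η p) (hf0 : ∀ p ∈ Bidisc, f p ≤ 0)
    (hA : ∀ k, k ≤ K + 1 → annMean k η ≤ A) :
    ∫ p in PD (1 / 2) (1 / 2), gw (fun q : ℂ × ℂ => hhat β K q.2) p * (-f p) ≤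
      B * (K * (A + 40 * δ)) := by
  have hPB : PD (1 / 2) (1 / 2) ⊆ Bidisc := fun p hp =>
    ⟨lt_of_le_of_lt hp.1 (by norm_num), lt_of_le_of_lt hp.2 (by norm_num)⟩
  refine (weight_le hβ hBw K (T := PD (1 / 2) (1 / 2)) subset_rfl
    (isCompact_PD _ _).measurableSet hf.neg
    (fun p hp => by have := hf0 p (hPB hp); simpa using this)).trans ?_
  refine mul_le_mul_of_nonneg_left ?_ hB
  have : ∀ k ∈ Finset.range K, (4 : ℝ) ^ k *
      ∫ p in PD (1 / 2) (1 / 2) ∩ {p : ℂ × ℂ | p.2 ∈ shell k}, (-f p) ≤ A + 40 * δ := by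
    intro k hk
    have hk' : k + 2 ≤ K + 1 := by have := Finset.mem_range.1 hk; omega
    have hsub := shell_subset_ann k (T := PD (1 / 2) (1 / 2)) subset_rfl
    have hms : MeasurableSet (PD (1 / 2) (1 / 2) ∩ {p : ℂ × ℂ | p.2 ∈ shell k}) := by
      refine (isCompact_PD _ _).measurableSet.inter ?_
      have : {p : ℂ × ℂ | p.2 ∈ shell k} = {p : ℂ × ℂ | 3 / 10 ≤ 2 ^ k * ‖p.2‖} ∩
          {p : ℂ × ℂ | 2 ^ k * ‖p.2‖ ≤ 9 / 20} := by ext p; simp [shell]
      rw [this]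
      exact ((isClosed_le continuous_const (by fun_prop)).inter
        (isClosed_le (by fun_prop) continuous_const)).measurableSet
    have hint : IntegrableOn (fun p => η p + 4 * δ) (ann (k + 2)) :=
      intOn_of_subset (hη.add continuous_const) (ann_subset _)
    have h1 : ∫ p in PD (1 / 2) (1 / 2) ∩ {p : ℂ × ℂ | p.2 ∈ shell k}, (-f p) ≤
        ∫ p in ann (k + 2), (η p + 4 * δ) := by
      refine le_trans (setIntegral_mono_on ?_ (hint.mono_set hsub) hms (fun p _ => ?_))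
        (setIntegral_mono_set hint ?_ (LE.le.eventuallyLE hsub))
      · exact intOn_of_subset hf.neg Set.inter_subset_left
      · have := hfη p; linarith
      · exact Filter.Eventually.of_forall (fun p => by
          have := hη0 p
          show (0 : ℝ) ≤ η p + 4 * δ
          linarith)
    have h2 : ∫ p in ann (k + 2), (η p + 4 * δ) =
        (∫ p in ann (k + 2), η p) + 4 * δ * (volume (ann (k + 2))).toReal := by
      rw [integral_add (intOn_of_subset hη (ann_subset _))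
        (intOn_of_subset continuous_const (ann_subset _)), setIntegral_const, smul_eq_mul]
      simp only [Measure.real]
      ring
    have h3 := volume_ann_le (k + 2)
    have h4 := hA (k + 2) hk'
    rw [annMean_def] at h4
    have hpi : Real.pi ^ 2 ≤ 10 := by
      have := Real.pi_lt_d2
      have h0 := Real.pi_pos
      nlinarith
    have h4k : (0 : ℝ) < 4 ^ k := by positivity
    have e : (4 : ℝ) ^ k * (1 / 4) ^ k = 1 := by rw [← mul_pow]; norm_num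
    -- collect
    have h5 : (4 : ℝ) ^ k * ∫ p in PD (1 / 2) (1 / 2) ∩ {p : ℂ × ℂ | p.2 ∈ shell k}, (-f p) ≤
        4 ^ k * ((∫ p in ann (k + 2), η p) + 4 * δ * (Real.pi ^ 2 * (1 / 4) ^ (k + 2))) := by
      refine mul_le_mul_of_nonneg_left ?_ h4k.le
      refine h1.trans ?_
      rw [h2]
      have : 4 * δ * (volume (ann (k + 2))).toReal ≤ 4 * δ * (Real.pi ^ 2 * (1 / 4) ^ (k + 2)) :=
        mul_le_mul_of_nonneg_left h3 (by positivity)
      linarith
    have h6 : (4 : ℝ) ^ k * (4 * δ * (Real.pi ^ 2 * (1 / 4) ^ (k + 2))) = δ * Real.pi ^ 2 / 4 := by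
      rw [pow_add]
      calc (4 : ℝ) ^ k * (4 * δ * (Real.pi ^ 2 * ((1 / 4) ^ k * (1 / 4) ^ 2)))
          = (4 ^ k * (1 / 4) ^ k) * (4 * δ * Real.pi ^ 2 * (1 / 4) ^ 2) := by ring
        _ = _ := by rw [e]; ring
    have hη1 : 0 ≤ ∫ p in ann (k + 2), η p :=
      setIntegral_nonneg (isClosed_ann _).measurableSet (fun p _ => hη0 p)
    have h7 : (4 : ℝ) ^ k * ∫ p in ann (k + 2), η p ≤ A := by
      refine le_trans ?_ h4
      refine mul_le_mul_of_nonneg_right ?_ hη1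
      exact pow_le_pow_right₀ (by norm_num) (by omega)
    rw [mul_add, h6] at h5
    have h8 : δ * Real.pi ^ 2 / 4 ≤ 40 * δ := by nlinarith
    linarith
  calc ∑ k ∈ Finset.range K, (4 : ℝ) ^ k *
      ∫ p in PD (1 / 2) (1 / 2) ∩ {p : ℂ × ℂ | p.2 ∈ shell k}, (-f p)
      ≤ ∑ k ∈ Finset.range K, (A + 40 * δ) := Finset.sum_le_sum this
    _ = K * (A + 40 * δ) := by
        rw [Finset.sum_const, Finset.card_range, nsmul_eq_mul]

end CMA
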