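import Pool.Agent.Work.MP_4eb3f9_an_helper6.FC

/-!
# Block F, part D: Cauchy-Schwarz and error terms
-/

open Complex MeasureTheory Filter Topology
open scoped ContDiff

namespace CMA

lemma hcs_prod {a b : ℂ → ℝ} (ha : HasCompactSupport a) (hb : HasCompactSupport b) :
    HasCompactSupport (fun p : ℂ × ℂ => a p.1 * b p.2) := by
  have hK : IsCompact (tsupport a ×ˢ tsupport b) := IsCompact.prod ha hb
  refine HasCompactSupport.of_support_subset_isCompact hK ?_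
  intro p hp
  have h : a p.1 * b p.2 ≠ 0 := hp
  exact ⟨subset_tsupport _ (left_ne_zero_of_mul h), subset_tsupport _ (right_ne_zero_of_mul h)⟩

lemma pd_snd_zero {b : ℂ → ℝ} (hb : ContDiff ℝ ∞ b) (k : Fin 4) (hk : (dir k).2 = 0) :
    pd k (fun q : ℂ × ℂ => b q.2) = fun _ => 0 := by
  rw [pd_snd hb]; funext q; simp [hk]

lemma pd_fst_zero {a : ℂ → ℝ} (ha : ContDiff ℝ ∞ a) (k : Fin 4) (hk : (dir k).1 = 0) :
    pd k (fun q : ℂ × ℂ => a q.1) = fun _ => 0 := by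
  rw [pd_fst ha]; funext q; simp [hk]

lemma cd_fst {a : ℂ → ℝ} (ha : ContDiff ℝ ∞ a) : ContDiff ℝ ∞ (fun q : ℂ × ℂ => a q.1) :=
  ha.comp contDiff_fst

lemma cd_snd {a : ℂ → ℝ} (ha : ContDiff ℝ ∞ a) : ContDiff ℝ ∞ (fun q : ℂ × ℂ => a q.2) :=
  ha.comp contDiff_snd

/-- Integration by parts in the `z` variable. -/
lemma ibp_hzz {a b : ℂ → ℝ} (ha : ContDiff ℝ ∞ a) (hb : ContDiff ℝ ∞ b)
    (has : HasCompactSupport a) (hbs : HasCompactSupport b) {f : ℂ × ℂ → ℝ}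
    (hf : ContDiff ℝ ∞ f) :
    ∫ p : ℂ × ℂ, a p.1 * b p.2 * hzz f p =
      ∫ p : ℂ × ℂ, hzz (fun q : ℂ × ℂ => a q.1) p * b p.2 * f p := by
  have hA := cd_fst ha
  have hB := cd_snd hb
  have key : ∀ k : Fin 4, (dir k).2 = 0 →
      ∫ p : ℂ × ℂ, a p.1 * b p.2 * pd k (pd k f) p =
        ∫ p : ℂ × ℂ, pd k (pd k (fun q : ℂ × ℂ => a q.1)) p * b p.2 * f p := by
    intro k hk
    have hu : ContDiff ℝ ∞ (fun p : ℂ × ℂ => a p.1 * b p.2) := hA.mul hB
    have hus := hcs_prod has hbs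
    have e1 : pd k (fun p : ℂ × ℂ => a p.1 * b p.2) =
        fun p => pd k (fun q : ℂ × ℂ => a q.1) p * b p.2 := by
      rw [pd_mul hA hB, pd_snd_zero hb k hk]
      funext p; ring
    have hpa := cd_pd hA k
    have e2 : pd k (fun p : ℂ × ℂ => pd k (fun q : ℂ × ℂ => a q.1) p * b p.2) =
        fun p => pd k (pd k (fun q : ℂ × ℂ => a q.1)) p * b p.2 := by
      rw [pd_mul hpa hB, pd_snd_zero hb k hk]
      funext p; ring
    have h1 := ibp hu (cd_pd hf k) hus k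
    rw [e1] at h1
    have hu2 : ContDiff ℝ ∞ (fun p : ℂ × ℂ => pd k (fun q : ℂ × ℂ => a q.1) p * b p.2) :=
      hpa.mul hB
    have hus2 : HasCompactSupport
        (fun p : ℂ × ℂ => pd k (fun q : ℂ × ℂ => a q.1) p * b p.2) := by
      rw [← e1]; exact hcs_pd hus k
    have h2 := ibp hu2 hf hus2 k
    rw [e2] at h2
    rw [h1, h2, neg_neg]
  have k0 := key 0 (by simp [dir])
  have k1 := key 1 (by simp [dir])
  have hu : ContDiff ℝ ∞ (fun p : ℂ × ℂ => a p.1 * b p.2) := hA.mul hB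
  have hus := hcs_prod has hbs
  have i0 : Integrable (fun p : ℂ × ℂ => a p.1 * b p.2 * pd 0 (pd 0 f) p) :=
    integrable_of_cs (hu.continuous.mul (cd_pd (cd_pd hf 0) 0).continuous) hus.mul_right
  have i1 : Integrable (fun p : ℂ × ℂ => a p.1 * b p.2 * pd 1 (pd 1 f) p) :=
    integrable_of_cs (hu.continuous.mul (cd_pd (cd_pd hf 1) 1).continuous) hus.mul_right
  have hcsA : ∀ k : Fin 4, HasCompactSupport
      (fun p : ℂ × ℂ => pd k (pd k (fun q : ℂ × ℂ => a q.1)) p * b p.2) := by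
    intro k
    have e := pd_fst ha k
    have e' := pd_fst (cd_dirderiv ha (dir k).1) k
    rw [e, e']
    exact hcs_prod (cs_dirderiv (cs_dirderiv has (dir k).1) (dir k).1) hbs
  have j0 : Integrable (fun p : ℂ × ℂ =>
      pd 0 (pd 0 (fun q : ℂ × ℂ => a q.1)) p * b p.2 * f p) :=
    integrable_of_cs (((cd_pd (cd_pd hA 0) 0).continuous.mul hB.continuous).mul hf.continuous)
      (hcsA 0).mul_right
  have j1 : Integrable (fun p : ℂ × ℂ =>
      pd 1 (pd 1 (fun q : ℂ × ℂ => a q.1)) p * b p.2 * f p) :=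
    integrable_of_cs (((cd_pd (cd_pd hA 1) 1).continuous.mul hB.continuous).mul hf.continuous)
      (hcsA 1).mul_right
  have l : ∫ p : ℂ × ℂ, a p.1 * b p.2 * hzz f p =
      ((∫ p : ℂ × ℂ, a p.1 * b p.2 * pd 0 (pd 0 f) p) +
        ∫ p : ℂ × ℂ, a p.1 * b p.2 * pd 1 (pd 1 f) p) / 4 := by
    rw [← integral_add i0 i1, ← integral_div]
    refine integral_congr_ae (Filter.Eventually.of_forall (fun p => ?_))
    simp only [hzz]; ring
  have r : ∫ p : ℂ × ℂ, hzz (fun q : ℂ × ℂ => a q.1) p * b p.2 * f p =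
      ((∫ p : ℂ × ℂ, pd 0 (pd 0 (fun q : ℂ × ℂ => a q.1)) p * b p.2 * f p) +
        ∫ p : ℂ × ℂ, pd 1 (pd 1 (fun q : ℂ × ℂ => a q.1)) p * b p.2 * f p) / 4 := by
    rw [← integral_add j0 j1, ← integral_div]
    refine integral_congr_ae (Filter.Eventually.of_forall (fun p => ?_))
    simp only [hzz]; ring
  rw [l, r, k0, k1]

lemma PD_sub_bidisc : PD (1 / 2) (1 / 2) ⊆ Bidisc := fun p hp =>
  ⟨lt_of_le_of_lt hp.1 (by norm_num), lt_of_le_of_lt hp.2 (by norm_num)⟩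

lemma bump_fst_zero {β : ℂ → ℝ} (hβ : IsBump β) {p : ℂ × ℂ} (hp : 1 / 2 < ‖p.1‖) :
    β p.1 = 0 := hβ.zero _ (by linarith)

/-- The gradient of the weight vanishes for `|w| > 1/2`. -/
lemma pd_hhat_zero' {β : ℂ → ℝ} (hβ : IsBump β) (K : ℕ) (j : Fin 4) {p : ℂ × ℂ}
    (hp : 1 / 2 < ‖p.2‖) : pd j (fun q : ℂ × ℂ => hhat β K q.2) p = 0 := by
  have : (fun q : ℂ × ℂ => hhat β K q.2) =ᶠ[𝓝 p] fun _ => (0 : ℝ) := by
    have ho : IsOpen {q : ℂ × ℂ | 1 / 2 < ‖q.2‖} := isOpen_lt continuous_const (by fun_prop)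
    filter_upwards [ho.mem_nhds hp] with q hq
    have hq' : 1 / 2 < ‖q.2‖ := hq
    exact hhat_zero hβ K (by linarith)
  rw [(pd_congr this j).eq_of_nhds, pd_const]

/-- The Cauchy-Schwarz step with parameter `τ`. -/
lemma cs_step (hI1 : Stmt_I1) {β : ℂ → ℝ} (hβ : IsBump β) {B : ℝ} (hB : 0 ≤ B)
    (hB2 : ∀ p : ℂ × ℂ, |hzz (fun q : ℂ × ℂ => β q.1 ^ 2) p| ≤ B) (K : ℕ)
    {f φ : ℂ × ℂ → ℝ} (hf : ContDiff ℝ ∞ f) (hφ : SPsh φ) (hf0 : ∀ p ∈ Bidisc, f p ≤ 0)
    (hfφ : ∀ p : ℂ × ℂ, (1 / 2) ^ (K + 1) ≤ ‖p.2‖ → φ =ᶠ[𝓝 p] f) {τ : ℝ} (hτ : 0 < τ) :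
    2 * ∫ p : ℂ × ℂ, β p.1 * |bB f (fun q : ℂ × ℂ => hhat β K q.2) f p| ≤
      τ * (∫ p in PD (1 / 2) (1 / 2), bB φ f f p) +
      τ⁻¹ * (B * ∫ p in PD (1 / 2) (1 / 2), gw (fun q : ℂ × ℂ => hhat β K q.2) p * (-f p)) := by
  set H : ℂ × ℂ → ℝ := fun q : ℂ × ℂ => hhat β K q.2 with hHdef
  have hH : ContDiff ℝ ∞ H := cd_snd (cd_hhat hβ.smooth K)
  have hH0 : ∀ p, pd 0 H p = 0 := fun p => by
    rw [hHdef, pd_snd_zero (cd_hhat hβ.smooth K) 0 (by simp [dir])]
  have hH1 : ∀ p, pd 1 H p = 0 := fun p => by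
    rw [hHdef, pd_snd_zero (cd_hhat hβ.smooth K) 1 (by simp [dir])]
  -- dichotomy
  have hdich : ∀ p : ℂ × ℂ, (∀ j, pd j H p = 0) ∨ φ =ᶠ[𝓝 p] f := by
    intro p
    by_cases hp : 2 ^ K * ‖p.2‖ ≤ 1 / 2
    · exact Or.inl (fun j => pd_hhat_zero hβ K j hp)
    · right
      refine hfφ p ?_
      push Not at hp
      have e : (2 : ℝ) ^ K * (1 / 2) ^ K = 1 := by rw [← mul_pow]; norm_num
      have : (2 : ℝ) ^ K * (1 / 2) ^ (K + 1) ≤ 2 ^ K * ‖p.2‖ := by
        rw [pow_succ, ← mul_assoc, e]; linarith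
      exact le_of_mul_le_mul_left this (by positivity)
  have hgwH : ∀ p, gw H p = (pd 2 H p ^ 2 + pd 3 H p ^ 2) / 4 := fun p => rfl
  have hbH : ∀ p, bB φ H H p = hzz φ p * gw H p := by
    intro p; simp only [bB, gw, hH0, hH1]; ring
  have e1 : ∀ p, bB f H f p = bB φ H f p := by
    intro p
    rcases hdich p with h | h
    · simp [bB, h]
    · simp only [bB, hzz_congr h, hww_congr h, hP_congr h, hQ_congr h]
  have e2 : ∀ p, hzz φ p * gw H p = hzz f p * gw H p := by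
    intro p
    rcases hdich p with h | h
    · simp [gw, h]
    · rw [hzz_congr h]
  -- integrability on the polydisc etc.
  have hBφ : Continuous (bB φ f f) := (cd_bB hφ.smooth hf hf).continuous
  have hms : MeasurableSet (PD (1 / 2) (1 / 2)) := (isCompact_PD _ _).measurableSet
  have hi1 : Integrable (fun p => (PD (1 / 2) (1 / 2)).indicator (bB φ f f) p) :=
    (integrable_indicator_iff hms).2
      (hBφ.continuousOn.integrableOn_compact (isCompact_PD _ _))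
  have hβs : HasCompactSupport (fun z => β z ^ 2) := by
    have := hβ.cs.mul_right (f' := β)
    refine this.mono ?_
    intro z hz
    have hz' : β z ^ 2 ≠ 0 := hz
    show β z * β z ≠ 0
    rwa [← pow_two]
  have hβ2 : ContDiff ℝ ∞ (fun z => β z ^ 2) := hβ.smooth.pow 2
  -- gw H as a function of w
  set b : ℂ → ℝ := fun w => ((fderiv ℝ (hhat β K) w (dir 2).2) ^ 2 +
    (fderiv ℝ (hhat β K) w (dir 3).2) ^ 2) / 4 with hbdef
  have hb : ContDiff ℝ ∞ b :=
    (((cd_dirderiv (cd_hhat hβ.smooth K) _).pow 2).add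
      ((cd_dirderiv (cd_hhat hβ.smooth K) _).pow 2)).div_const 4
  have hbs : HasCompactSupport b := by
    refine ((hhat_cs hβ K).fderiv (𝕜 := ℝ)).mono' ?_
    intro q hq
    refine subset_tsupport _ ?_
    intro h0
    exact hq (by simp [hbdef, h0])
  have hbg : ∀ p : ℂ × ℂ, gw H p = b p.2 := by
    intro p
    simp only [gw, hHdef, pd_snd (cd_hhat hβ.smooth K), hbdef]
  have hi2 : Integrable (fun p : ℂ × ℂ => β p.1 ^ 2 * b p.2 * hzz f p) :=
    integrable_of_cs (((cd_fst hβ2).continuous.mul (cd_snd hb).continuous).mul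
      (cd_hzz hf).continuous) (hcs_prod hβs hbs).mul_right
  have hi0 : Integrable (fun p : ℂ × ℂ => β p.1 * |bB f H f p|) := by
    refine integrable_of_cs ((cd_fst hβ.smooth).continuous.mul
      (cd_bB hf hH hf).continuous.abs) ?_
    have : HasCompactSupport (fun p : ℂ × ℂ => β p.1 * |bB f H f p|) := by
      refine (isCompact_PD (1 / 2) (1 / 2)).of_isClosed_subset (isClosed_tsupport _) ?_
      refine closure_minimal ?_ (isCompact_PD _ _).isClosed
      intro p hp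
      by_contra hh
      have hh' : ¬ (‖p.1‖ ≤ 1 / 2 ∧ ‖p.2‖ ≤ 1 / 2) := hh
      rw [not_and_or, not_le, not_le] at hh'
      rcases hh' with h | h
      · exact hp (by simp [bump_fst_zero hβ h])
      · have : ∀ j, pd j H p = 0 := fun j => pd_hhat_zero' hβ K j h
        exact hp (by simp [bB, this])
    exact this
  -- pointwise inequality
  have hpt : ∀ p : ℂ × ℂ, 2 * (β p.1 * |bB f H f p|) ≤
      τ * (PD (1 / 2) (1 / 2)).indicator (bB φ f f) p
        + τ⁻¹ * (β p.1 ^ 2 * b p.2 * hzz f p) := by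
    intro p
    have hpos := hI1.1 φ H f p (hφ.pos p)
    have hposf := hI1.1 φ f f p (hφ.pos p)
    have hb0 : 0 ≤ b p.2 := by rw [← hbg]; exact gw_nonneg _ _
    have hsec : β p.1 ^ 2 * b p.2 * hzz f p = β p.1 ^ 2 * bB φ H H p := by
      rw [hbH, e2, hbg]; ring
    rw [hsec]
    by_cases hp : p ∈ PD (1 / 2) (1 / 2)
    · rw [Set.indicator_of_mem hp, e1]
      set X := bB φ H f p
      set Y := bB φ H H p
      set Z := bB φ f f p
      have h1 : X ^ 2 ≤ Y * Z := hpos.2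
      have hY : 0 ≤ Y := hpos.1
      have hZ : 0 ≤ Z := hposf.1
      have hβ0 := hβ.nonneg p.1
      -- 2 β|X| ≤ τ Z + τ⁻¹ β² Y
      have h2 : (β p.1 * |X|) ^ 2 ≤ (τ * Z) * (τ⁻¹ * (β p.1 ^ 2 * Y)) := by
        rw [mul_pow, sq_abs]
        have : (τ * Z) * (τ⁻¹ * (β p.1 ^ 2 * Y)) = β p.1 ^ 2 * (Y * Z) := by
          field_simp
        rw [this]
        exact mul_le_mul_of_nonneg_left h1 (sq_nonneg _)
      have ha : 0 ≤ τ * Z := by positivity
      have hb' : 0 ≤ τ⁻¹ * (β p.1 ^ 2 * Y) := by positivity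
      have h3 : (2 * (β p.1 * |X|)) ^ 2 ≤ (τ * Z + τ⁻¹ * (β p.1 ^ 2 * Y)) ^ 2 := by
        nlinarith [sq_nonneg (τ * Z - τ⁻¹ * (β p.1 ^ 2 * Y))]
      exact (abs_le.1 (abs_le_of_sq_le_sq h3 (by positivity))).2
    · rw [Set.indicator_of_notMem hp]
      have hz : β p.1 * |bB f H f p| = 0 := by
        have hh' : ¬ (‖p.1‖ ≤ 1 / 2 ∧ ‖p.2‖ ≤ 1 / 2) := hp
        rw [not_and_or, not_le, not_le] at hh'
        rcases hh' with h | h
        · simp [bump_fst_zero hβ h]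
        · have : ∀ j, pd j H p = 0 := fun j => pd_hhat_zero' hβ K j h
          simp [bB, this]
      rw [hz]
      have : 0 ≤ τ⁻¹ * (β p.1 ^ 2 * bB φ H H p) := by
        have := hpos.1
        positivity
      linarith
  have hmono := integral_mono (hi0.const_mul 2) ((hi1.const_mul τ).add (hi2.const_mul τ⁻¹)) hpt
  rw [integral_const_mul] at hmono
  simp only [Pi.add_apply] at hmono
  rw [integral_add (hi1.const_mul τ) (hi2.const_mul τ⁻¹), integral_const_mul, integral_const_mul,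
    integral_indicator hms, ibp_hzz hβ2 hb hβs hbs hf] at hmono
  refine hmono.trans ?_
  have hlast : ∫ p : ℂ × ℂ, hzz (fun q : ℂ × ℂ => β q.1 ^ 2) p * b p.2 * f p ≤
      B * ∫ p in PD (1 / 2) (1 / 2), gw H p * (-f p) := by
    have hcont : Continuous (fun p : ℂ × ℂ => hzz (fun q : ℂ × ℂ => β q.1 ^ 2) p * b p.2 * f p) :=
      ((cd_hzz (cd_fst hβ2)).continuous.mul (cd_snd hb).continuous).mul hf.continuous
    have hz : ∀ p, p ∉ PD (1 / 2) (1 / 2) →
        hzz (fun q : ℂ × ℂ => β q.1 ^ 2) p * b p.2 * f p = 0 := by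
      intro p hp
      have hh' : ¬ (‖p.1‖ ≤ 1 / 2 ∧ ‖p.2‖ ≤ 1 / 2) := hp
      rw [not_and_or, not_le, not_le] at hh'
      rcases hh' with h | h
      · have : (fun q : ℂ × ℂ => β q.1 ^ 2) =ᶠ[𝓝 p] fun _ => (0 : ℝ) := by
          have ho : IsOpen {q : ℂ × ℂ | 1 / 2 < ‖q.1‖} := isOpen_lt continuous_const (by fun_prop)
          filter_upwards [ho.mem_nhds h] with q hq
          simp [bump_fst_zero hβ hq]
        have h0 : hzz (fun q : ℂ × ℂ => β q.1 ^ 2) p = 0 := by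
          rw [hzz_congr this]
          have : ∀ k : Fin 4, pd k (fun _ : ℂ × ℂ => (0 : ℝ)) = fun _ => 0 := by
            intro k; funext q; exact pd_const 0 k
          simp [hzz, this]
        rw [h0]; ring
      · have : b p.2 = 0 := by
          rw [← hbg]
          have : ∀ j, pd j H p = 0 := fun j => pd_hhat_zero' hβ K j h
          simp [gw, this]
        rw [this]; ring
    rw [← setIntegral_eq_integral_of_forall_compl_eq_zero hz, ← integral_const_mul]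
    refine setIntegral_mono_on (hcont.continuousOn.integrableOn_compact (isCompact_PD _ _))
      (((continuous_const.mul ((cd_gw hH).continuous.mul
        hf.continuous.neg))).continuousOn.integrableOn_compact (isCompact_PD _ _)) hms ?_
    intro p hp
    have hf' := hf0 p (PD_sub_bidisc hp)
    have hb0 : 0 ≤ b p.2 := by rw [← hbg]; exact gw_nonneg _ _
    rw [hbg]
    have h1 := hB2 p
    have h2 : -hzz (fun q : ℂ × ℂ => β q.1 ^ 2) p ≤ B := (neg_le_abs _).trans h1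
    have h3 : 0 ≤ b p.2 * (-f p) := mul_nonneg hb0 (by linarith)
    nlinarith [mul_le_mul_of_nonneg_right h2 h3]
  have := mul_le_mul_of_nonneg_left hlast (inv_nonneg.2 hτ.le)
  linarith

end CMA
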