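import Pool.Agent.Work.MP_4eb3f9_an_helper6.FD

/-!
# Block F, part E: the error terms of `Stmt_I4`
-/

open Complex MeasureTheory Filter Topology
open scoped ContDiff

namespace CMA

variable {β : ℂ → ℝ} {f : ℂ × ℂ → ℝ}

lemma hzz_fst_zero (hβ : IsBump β) {p : ℂ × ℂ} (h : 1 / 2 < ‖p.1‖) :
    hzz (fun q : ℂ × ℂ => β q.1) p = 0 ∧ gz (fun q : ℂ × ℂ => β q.1) p = 0 := by
  have : (fun q : ℂ × ℂ => β q.1) =ᶠ[𝓝 p] fun _ => (0 : ℝ) := by
    have ho : IsOpen {q : ℂ × ℂ | 1 / 2 < ‖q.1‖} := isOpen_lt continuous_const (by fun_prop)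
    filter_upwards [ho.mem_nhds h] with q hq
    simp [bump_fst_zero hβ hq]
  have h0 : ∀ k : Fin 4, pd k (fun _ : ℂ × ℂ => (0 : ℝ)) = fun _ => 0 := by
    intro k; funext q; exact pd_const 0 k
  constructor
  · rw [hzz_congr this]
    simp [hzz, h0]
  · simp only [gz, (pd_congr this _).eq_of_nhds, h0]
    norm_num

lemma gw_H_zero (hβ : IsBump β) (K : ℕ) {p : ℂ × ℂ} (h : 1 / 2 < ‖p.2‖) :
    gw (fun q : ℂ × ℂ => hhat β K q.2) p = 0 := by
  have : ∀ j, pd j (fun q : ℂ × ℂ => hhat β K q.2) p = 0 := fun j => pd_hhat_zero' hβ K j h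
  simp [gw, this]

lemma PD_mono_half {k₀ : ℕ} (hk₀ : 1 ≤ k₀) : PD (1 / 2) ((1 / 2) ^ k₀) ⊆ PD (1 / 2) (1 / 2) := by
  intro p hp
  refine ⟨hp.1, hp.2.trans ?_⟩
  calc ((1 : ℝ) / 2) ^ k₀ ≤ (1 / 2) ^ 1 := pow_le_pow_of_le_one (by norm_num) (by norm_num) hk₀
    _ = 1 / 2 := by norm_num

/-- The first error term. -/
lemma err_a (hβ : IsBump β) {B : ℝ} (hB : 0 ≤ B)
    (hBh : ∀ p : ℂ × ℂ, |hzz (fun q : ℂ × ℂ => β q.1) p| ≤ B) (K k₀ : ℕ) (hk₀ : 1 ≤ k₀)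
    (hf : ContDiff ℝ ∞ f) {A ε : ℝ} (h6 : ∫ p in PD (1 / 2) (1 / 2), gw f p ≤ A)
    (hε : ∫ p in PD (1 / 2) ((1 / 2) ^ k₀), gw f p ≤ ε) :
    ∫ p : ℂ × ℂ, hhat β K p.2 * |hzz (fun q : ℂ × ℂ => β q.1) p| * gw f p ≤
      B * (k₀ * A + K * ε) := by
  have hms : MeasurableSet (PD (1 / 2) (1 / 2)) := (isCompact_PD _ _).measurableSet
  have hms2 : MeasurableSet (PD (1 / 2) ((1 / 2) ^ k₀)) := (isCompact_PD _ _).measurableSet
  have hz : ∀ p, p ∉ PD (1 / 2) (1 / 2) →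
      hhat β K p.2 * |hzz (fun q : ℂ × ℂ => β q.1) p| * gw f p = 0 := by
    intro p hp
    have hh' : ¬ (‖p.1‖ ≤ 1 / 2 ∧ ‖p.2‖ ≤ 1 / 2) := hp
    rw [not_and_or, not_le, not_le] at hh'
    rcases hh' with h | h
    · rw [(hzz_fst_zero hβ h).1]; simp
    · rw [hhat_zero hβ K (by linarith)]; simp
  rw [← setIntegral_eq_integral_of_forall_compl_eq_zero hz]
  have hgw := (cd_gw hf).continuous
  have i1 : IntegrableOn (gw f) (PD (1 / 2) (1 / 2)) := intOn_of_subset hgw subset_rfl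
  have i2 : IntegrableOn ((PD (1 / 2) ((1 / 2) ^ k₀)).indicator (gw f)) (PD (1 / 2) (1 / 2)) :=
    i1.indicator hms2
  have hle : ∫ p in PD (1 / 2) (1 / 2), hhat β K p.2 * |hzz (fun q : ℂ × ℂ => β q.1) p| * gw f p ≤
      ∫ p in PD (1 / 2) (1 / 2), (B * k₀ * gw f p +
        B * K * (PD (1 / 2) ((1 / 2) ^ k₀)).indicator (gw f) p) := by
    refine setIntegral_mono_on ?_ ((i1.const_mul _).add (i2.const_mul _)) hms ?_
    · refine intOn_of_subset ?_ subset_rfl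
      exact ((cd_snd (cd_hhat hβ.smooth K)).continuous.mul
        (cd_hzz (cd_fst hβ.smooth)).continuous.abs).mul hgw
    · intro p hp
      have g0 := gw_nonneg f p
      have h1 := hBh p
      have h2 := hhat_nonneg hβ K p.2
      by_cases hq : p ∈ PD (1 / 2) ((1 / 2) ^ k₀)
      · rw [Set.indicator_of_mem hq]
        have h3 := hhat_le hβ K p.2
        have h4 : hhat β K p.2 * |hzz (fun q : ℂ × ℂ => β q.1) p| ≤ K * B :=
          mul_le_mul h3 h1 (abs_nonneg _) (by positivity)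
        have h5 := mul_le_mul_of_nonneg_right h4 g0
        have h6 : 0 ≤ B * k₀ * gw f p := by positivity
        linarith
      · rw [Set.indicator_of_notMem hq]
        have hq' : ¬ (‖p.1‖ ≤ 1 / 2 ∧ ‖p.2‖ ≤ (1 / 2) ^ k₀) := hq
        have hq2 : (1 / 2) ^ k₀ < ‖p.2‖ := by
          by_contra hh
          exact hq' ⟨hp.1, not_lt.1 hh⟩
        have e : (2 : ℝ) ^ k₀ * (1 / 2) ^ k₀ = 1 := by rw [← mul_pow]; norm_num
        have h3 := hhat_le_of hβ K k₀ (w := p.2) (by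
          rw [← e]; exact mul_le_mul_of_nonneg_left hq2.le (by positivity))
        have h4 : hhat β K p.2 * |hzz (fun q : ℂ × ℂ => β q.1) p| ≤ k₀ * B :=
          mul_le_mul h3 h1 (abs_nonneg _) (by positivity)
        have h5 := mul_le_mul_of_nonneg_right h4 g0
        linarith
  refine hle.trans ?_
  rw [integral_add (i1.const_mul _) (i2.const_mul _), integral_const_mul, integral_const_mul,
    setIntegral_indicator hms2, Set.inter_eq_self_of_subset_right (PD_mono_half hk₀)]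
  have h7 : B * k₀ * (∫ p in PD (1 / 2) (1 / 2), gw f p) ≤ B * k₀ * A :=
    mul_le_mul_of_nonneg_left h6 (by positivity)
  have h8 : B * K * (∫ p in PD (1 / 2) ((1 / 2) ^ k₀), gw f p) ≤ B * K * ε :=
    mul_le_mul_of_nonneg_left hε (by positivity)
  calc _ ≤ B * k₀ * A + B * K * ε := add_le_add h7 h8
    _ = _ := by ring

lemma sum_k_add_two (K : ℕ) : ∑ k ∈ Finset.range K, ((k : ℝ) + 2) ≤ (K + 1) ^ 2 := by
  induction K with
  | zero => simp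
  | succ n ih =>
    rw [Finset.sum_range_succ]
    push_cast
    nlinarith [(by positivity : (0 : ℝ) ≤ (n : ℝ))]

/-- Weighted horizontal energies. -/
lemma horiz_sum (hβ : IsBump β) {B M : ℝ} (hB : 0 ≤ B) (hM : 0 ≤ M)
    (hBw : ∀ (K : ℕ) (p : ℂ × ℂ), gw (fun q : ℂ × ℂ => hhat β K q.2) p ≤
      B * ∑ k ∈ Finset.range K, (4 : ℝ) ^ k * (shell k).indicator (fun _ => (1 : ℝ)) p.2)
    {η : ℂ × ℂ → ℝ} (hf : ContDiff ℝ ∞ f) (hη : ContDiff ℝ ∞ η) (hηs : HasCompactSupport η)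
    (hηf : ∀ p ∈ PD (1 / 2) (1 / 2), gz η p = gz f p)
    (hhor : ∀ r : ℝ, 0 < r → r ≤ 1 →
      ∫ p in {p : ℂ × ℂ | ‖p.2‖ ≤ r}, gz η p ≤ 48 * r ^ 2 * M * (1 + Real.log (1 / r)))
    (K k₀ : ℕ) :
    (∫ p in PD (1 / 2) (1 / 2), gw (fun q : ℂ × ℂ => hhat β K q.2) p * gz f p ≤
      B * (12 * M * (K + 1) ^ 2)) ∧
    (∫ p in PD (1 / 2) (1 / 2) ∩ {p : ℂ × ℂ | (1 / 2) ^ k₀ < ‖p.2‖},
      gw (fun q : ℂ × ℂ => hhat β K q.2) p * gz f p ≤ B * (12 * M * (k₀ + 1) ^ 2)) := by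
  have hms : MeasurableSet (PD (1 / 2) (1 / 2)) := (isCompact_PD _ _).measurableSet
  have hgzs : HasCompactSupport (gz η) := by
    refine hηs.mono' ?_
    intro p hp
    by_contra hh
    apply hp
    simp [gz, pd_eq_zero_of_nmem _ hh]
  have hint : Integrable (gz η) := integrable_of_cs (cd_gz hη).continuous hgzs
  have hclr : ∀ r : ℝ, MeasurableSet {p : ℂ × ℂ | ‖p.2‖ ≤ r} := fun r =>
    (isClosed_le (by fun_prop) continuous_const).measurableSet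
  have hshell : ∀ k, MeasurableSet {p : ℂ × ℂ | p.2 ∈ shell k} := by
    intro k
    have : {p : ℂ × ℂ | p.2 ∈ shell k} = {p : ℂ × ℂ | 3 / 10 ≤ 2 ^ k * ‖p.2‖} ∩
        {p : ℂ × ℂ | 2 ^ k * ‖p.2‖ ≤ 9 / 20} := by ext p; simp [shell]
    rw [this]
    exact ((isClosed_le continuous_const (by fun_prop)).inter
      (isClosed_le (by fun_prop) continuous_const)).measurableSet
  have hterm : ∀ (T : Set (ℂ × ℂ)), T ⊆ PD (1 / 2) (1 / 2) → MeasurableSet T → ∀ k : ℕ,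
      (4 : ℝ) ^ k * ∫ p in T ∩ {p : ℂ × ℂ | p.2 ∈ shell k}, gz f p ≤ 12 * M * (k + 2) := by
    intro T hT hTm k
    have hr0 : (0 : ℝ) < (1 / 2) ^ (k + 1) := by positivity
    have hr1 : ((1 : ℝ) / 2) ^ (k + 1) ≤ 1 := pow_le_one₀ (by norm_num) (by norm_num)
    have h1 := hhor _ hr0 hr1
    have hsub : T ∩ {p : ℂ × ℂ | p.2 ∈ shell k} ⊆ {p : ℂ × ℂ | ‖p.2‖ ≤ (1 / 2) ^ (k + 1)} := by
      rintro p ⟨_, hs⟩
      have hs2 : 2 ^ k * ‖p.2‖ ≤ 9 / 20 := hs.2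
      have e : (2 : ℝ) ^ k * (1 / 2) ^ k = 1 := by rw [← mul_pow]; norm_num
      have : (2 : ℝ) ^ k * ‖p.2‖ ≤ 2 ^ k * (1 / 2) ^ (k + 1) := by
        rw [pow_succ, ← mul_assoc, e]; linarith
      exact le_of_mul_le_mul_left this (by positivity)
    have h2 : ∫ p in T ∩ {p : ℂ × ℂ | p.2 ∈ shell k}, gz f p ≤
        ∫ p in {p : ℂ × ℂ | ‖p.2‖ ≤ (1 / 2) ^ (k + 1)}, gz η p := by
      have e : ∫ p in T ∩ {p : ℂ × ℂ | p.2 ∈ shell k}, gz f p =
          ∫ p in T ∩ {p : ℂ × ℂ | p.2 ∈ shell k}, gz η p :=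
        setIntegral_congr_fun (hTm.inter (hshell k)) (fun p hp => (hηf p (hT hp.1)).symm)
      rw [e]
      exact setIntegral_mono_set hint.integrableOn
        (Filter.Eventually.of_forall (fun p => gz_nonneg _ _)) (LE.le.eventuallyLE hsub)
    have hlog : Real.log (1 / (1 / 2) ^ (k + 1)) ≤ k + 1 := by
      have e : (1 : ℝ) / (1 / 2) ^ (k + 1) = 2 ^ (k + 1) := by
        rw [one_div, ← inv_pow]; norm_num
      rw [e, Real.log_pow]
      have : Real.log 2 ≤ 1 := by have := Real.log_two_lt_d9; linarith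
      push_cast
      nlinarith [(by positivity : (0 : ℝ) ≤ (k : ℝ))]
    have e4 : ((1 : ℝ) / 2 ^ (k + 1)) = (1 / 2) ^ (k + 1) := by rw [one_div_pow]
    have h3 : (4 : ℝ) ^ k * (48 * ((1 / 2) ^ (k + 1)) ^ 2 * M * (1 + Real.log (1 / (1 / 2) ^ (k + 1))))
        ≤ 12 * M * (k + 2) := by
      have e5 : (4 : ℝ) ^ k * ((1 / 2) ^ (k + 1)) ^ 2 = 1 / 4 := by
        have : (((1 : ℝ) / 2) ^ (k + 1)) ^ 2 = (1 / 4) ^ k * (1 / 4) := by
          rw [← pow_mul, mul_comm (k + 1) 2, pow_mul, pow_succ]; norm_num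
        rw [this, ← mul_assoc, ← mul_pow]; norm_num
      calc (4 : ℝ) ^ k * (48 * ((1 / 2) ^ (k + 1)) ^ 2 * M * (1 + Real.log (1 / (1 / 2) ^ (k + 1))))
          = 48 * (4 ^ k * ((1 / 2) ^ (k + 1)) ^ 2) * M * (1 + Real.log (1 / (1 / 2) ^ (k + 1))) := by
            ring
        _ = 12 * M * (1 + Real.log (1 / (1 / 2) ^ (k + 1))) := by rw [e5]; ring
        _ ≤ 12 * M * (k + 2) := by
            refine mul_le_mul_of_nonneg_left ?_ (by positivity)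
            linarith
    exact (mul_le_mul_of_nonneg_left (h2.trans h1) (by positivity)).trans h3
  have hgz0 : ∀ p, 0 ≤ gz f p := gz_nonneg f
  constructor
  · refine (weight_le hβ hBw K (T := PD (1 / 2) (1 / 2)) subset_rfl hms (cd_gz hf).continuous
      (fun p _ => hgz0 p)).trans ?_
    refine mul_le_mul_of_nonneg_left ?_ hB
    calc _ ≤ ∑ k ∈ Finset.range K, 12 * M * ((k : ℝ) + 2) :=
          Finset.sum_le_sum (fun k _ => hterm _ subset_rfl hms k)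
      _ = 12 * M * ∑ k ∈ Finset.range K, ((k : ℝ) + 2) := by rw [Finset.mul_sum]
      _ ≤ 12 * M * (K + 1) ^ 2 := mul_le_mul_of_nonneg_left (sum_k_add_two K) (by positivity)
  · have hTm : MeasurableSet (PD (1 / 2) (1 / 2) ∩ {p : ℂ × ℂ | (1 / 2) ^ k₀ < ‖p.2‖}) :=
      hms.inter (isOpen_lt continuous_const (by fun_prop)).measurableSet
    refine (weight_le hβ hBw K (T := PD (1 / 2) (1 / 2) ∩ {p : ℂ × ℂ | (1 / 2) ^ k₀ < ‖p.2‖})
      Set.inter_subset_left hTm (cd_gz hf).continuous (fun p _ => hgz0 p)).trans ?_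
    refine mul_le_mul_of_nonneg_left ?_ hB
    have hterm2 : ∀ k ∈ Finset.range K, (4 : ℝ) ^ k *
        ∫ p in PD (1 / 2) (1 / 2) ∩ {p : ℂ × ℂ | (1 / 2) ^ k₀ < ‖p.2‖} ∩
          {p : ℂ × ℂ | p.2 ∈ shell k}, gz f p ≤ if k < k₀ then 12 * M * ((k : ℝ) + 2) else 0 := by
      intro k _
      split_ifs with hk
      · exact hterm _ Set.inter_subset_left hTm k
      · have : PD (1 / 2) (1 / 2) ∩ {p : ℂ × ℂ | (1 / 2) ^ k₀ < ‖p.2‖} ∩
            {p : ℂ × ℂ | p.2 ∈ shell k} = ∅ := by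
          ext p
          simp only [Set.mem_inter_iff, Set.mem_empty_iff_false, iff_false]
          rintro ⟨⟨_, h1⟩, h2⟩
          have h1' : (1 / 2) ^ k₀ < ‖p.2‖ := h1
          have h2' : 2 ^ k * ‖p.2‖ ≤ 9 / 20 := h2.2
          have h3 : (2 : ℝ) ^ k₀ ≤ 2 ^ k := pow_le_pow_right₀ (by norm_num) (not_lt.1 hk)
          have e : (2 : ℝ) ^ k₀ * (1 / 2) ^ k₀ = 1 := by rw [← mul_pow]; norm_num
          have h4 : (2 : ℝ) ^ k₀ * (1 / 2) ^ k₀ < 2 ^ k₀ * ‖p.2‖ :=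
            mul_lt_mul_of_pos_left h1' (by positivity)
          have h5 := mul_le_mul_of_nonneg_right h3 (norm_nonneg p.2)
          linarith
        rw [this]; simp
    calc _ ≤ ∑ k ∈ Finset.range K, (if k < k₀ then 12 * M * ((k : ℝ) + 2) else 0) :=
          Finset.sum_le_sum hterm2
      _ = ∑ k ∈ (Finset.range K).filter (fun k => k < k₀), 12 * M * ((k : ℝ) + 2) := by
          rw [Finset.sum_filter]
      _ ≤ ∑ k ∈ Finset.range k₀, 12 * M * ((k : ℝ) + 2) := by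
          refine Finset.sum_le_sum_of_subset_of_nonneg ?_ (fun k _ _ => by positivity)
          intro k hk
          simp only [Finset.mem_filter, Finset.mem_range] at hk ⊢
          exact hk.2
      _ = 12 * M * ∑ k ∈ Finset.range k₀, ((k : ℝ) + 2) := by rw [Finset.mul_sum]
      _ ≤ 12 * M * (k₀ + 1) ^ 2 := mul_le_mul_of_nonneg_left (sum_k_add_two k₀) (by positivity)

/-- The second error term. -/
lemma err_b (hβ : IsBump β) {B M : ℝ} (hB : 0 ≤ B) (hM : 0 ≤ M)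
    (hBg : ∀ p : ℂ × ℂ, gz (fun q : ℂ × ℂ => β q.1) p ≤ B)
    (hBw : ∀ (K : ℕ) (p : ℂ × ℂ), gw (fun q : ℂ × ℂ => hhat β K q.2) p ≤
      B * ∑ k ∈ Finset.range K, (4 : ℝ) ^ k * (shell k).indicator (fun _ => (1 : ℝ)) p.2)
    {η : ℂ × ℂ → ℝ} (hf : ContDiff ℝ ∞ f) (hη : ContDiff ℝ ∞ η) (hηs : HasCompactSupport η)
    (hηf : ∀ p ∈ PD (1 / 2) (1 / 2), gz η p = gz f p)
    (hhor : ∀ r : ℝ, 0 < r → r ≤ 1 →
      ∫ p in {p : ℂ × ℂ | ‖p.2‖ ≤ r}, gz η p ≤ 48 * r ^ 2 * M * (1 + Real.log (1 / r)))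
    (K k₀ : ℕ) (hk₀ : 1 ≤ k₀) {e : ℝ} (he : 0 < e)
    (h6 : ∫ p in PD (1 / 2) (1 / 2), gw f p ≤ 6 * M)
    (hε : ∫ p in PD (1 / 2) ((1 / 2) ^ k₀), gw f p ≤ e ^ 4) :
    ∫ p : ℂ × ℂ, Real.sqrt (gz (fun q : ℂ × ℂ => β q.1) p) *
        Real.sqrt (gw (fun q : ℂ × ℂ => hhat β K q.2) p) * Real.sqrt (gz f p) * Real.sqrt (gw f p) ≤
      Real.sqrt B * ((B * (12 * M) + 1) * (e ^ 2 * (K + 1)) + (B * (12 * M) + 6 * M) * (k₀ + 1)) := by
  obtain ⟨hs1, hs2⟩ := horiz_sum hβ hB hM hBw hf hη hηs hηf hhor K k₀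
  set H : ℂ × ℂ → ℝ := fun q : ℂ × ℂ => hhat β K q.2 with hHdef
  have hH : ContDiff ℝ ∞ H := cd_snd (cd_hhat hβ.smooth K)
  have hms : MeasurableSet (PD (1 / 2) (1 / 2)) := (isCompact_PD _ _).measurableSet
  have hmsi : MeasurableSet (PD (1 / 2) ((1 / 2) ^ k₀)) := (isCompact_PD _ _).measurableSet
  have hmso : MeasurableSet (PD (1 / 2) (1 / 2) ∩ {p : ℂ × ℂ | (1 / 2) ^ k₀ < ‖p.2‖}) :=
    hms.inter (isOpen_lt continuous_const (by fun_prop)).measurableSet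
  have hz : ∀ p, p ∉ PD (1 / 2) (1 / 2) →
      Real.sqrt (gz (fun q : ℂ × ℂ => β q.1) p) * Real.sqrt (gw H p) * Real.sqrt (gz f p)
        * Real.sqrt (gw f p) = 0 := by
    intro p hp
    have hh' : ¬ (‖p.1‖ ≤ 1 / 2 ∧ ‖p.2‖ ≤ 1 / 2) := hp
    rw [not_and_or, not_le, not_le] at hh'
    rcases hh' with h | h
    · rw [(hzz_fst_zero hβ h).2]; simp
    · rw [gw_H_zero hβ K h]; simp
  rw [← setIntegral_eq_integral_of_forall_compl_eq_zero hz]
  have cgz := (cd_gz hf).continuous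
  have cgw := (cd_gw hf).continuous
  have cgH := (cd_gw hH).continuous
  have cgβ := (cd_gz (cd_fst hβ.smooth)).continuous
  -- the two parameters
  set τ₁ : ℝ := e ^ 2 / (K + 1) with hτ₁
  set τ₂ : ℝ := 1 / (k₀ + 1) with hτ₂
  have hτ₁p : 0 < τ₁ := by positivity
  have hτ₂p : 0 < τ₂ := by positivity
  have hsplit : PD (1 / 2) (1 / 2) = PD (1 / 2) ((1 / 2) ^ k₀) ∪
      (PD (1 / 2) (1 / 2) ∩ {p : ℂ × ℂ | (1 / 2) ^ k₀ < ‖p.2‖}) := by
    ext p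
    constructor
    · intro hp
      by_cases h : ‖p.2‖ ≤ (1 / 2) ^ k₀
      · exact Or.inl ⟨hp.1, h⟩
      · exact Or.inr ⟨hp, not_le.1 h⟩
    · rintro (hp | hp)
      · exact PD_mono_half hk₀ hp
      · exact hp.1
  have hdisj : Disjoint (PD (1 / 2) ((1 / 2) ^ k₀))
      (PD (1 / 2) (1 / 2) ∩ {p : ℂ × ℂ | (1 / 2) ^ k₀ < ‖p.2‖}) := by
    rw [Set.disjoint_left]
    rintro p hp ⟨_, h⟩
    have h' : (1 / 2) ^ k₀ < ‖p.2‖ := h
    exact absurd hp.2 (not_le.2 h')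
  set F : ℂ × ℂ → ℝ := fun p => Real.sqrt (gz (fun q : ℂ × ℂ => β q.1) p) *
    Real.sqrt (gw H p) * Real.sqrt (gz f p) * Real.sqrt (gw f p) with hFdef
  have cF : Continuous F := ((cgβ.sqrt.mul cgH.sqrt).mul cgz.sqrt).mul cgw.sqrt
  have hpt : ∀ (τ : ℝ), 0 < τ → ∀ p, F p ≤
      Real.sqrt B * (τ * (gw H p * gz f p) + τ⁻¹ * gw f p) := by
    intro τ hτ p
    have g1 := gw_nonneg H p
    have g2 := gz_nonneg f p
    have g3 := gw_nonneg f p
    have h1 : Real.sqrt (gz (fun q : ℂ × ℂ => β q.1) p) ≤ Real.sqrt B := Real.sqrt_le_sqrt (hBg p)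
    have h2 : Real.sqrt (gw H p) * Real.sqrt (gz f p) * Real.sqrt (gw f p) ≤
        τ * (gw H p * gz f p) + τ⁻¹ * gw f p := by
      have ha : 0 ≤ τ * (gw H p * gz f p) := by positivity
      have hb : 0 ≤ τ⁻¹ * gw f p := by positivity
      refine (abs_le.1 (abs_le_of_sq_le_sq ?_ (add_nonneg ha hb))).2
      rw [mul_pow, mul_pow, Real.sq_sqrt g1, Real.sq_sqrt g2, Real.sq_sqrt g3]
      have e1 : gw H p * gz f p * gw f p = (τ * (gw H p * gz f p)) * (τ⁻¹ * gw f p) := by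
        field_simp
      rw [e1]
      nlinarith [mul_nonneg ha hb, sq_nonneg (τ * (gw H p * gz f p)), sq_nonneg (τ⁻¹ * gw f p)]
    calc F p = Real.sqrt (gz (fun q : ℂ × ℂ => β q.1) p) *
          (Real.sqrt (gw H p) * Real.sqrt (gz f p) * Real.sqrt (gw f p)) := by
            simp only [hFdef]; ring
      _ ≤ Real.sqrt B * (τ * (gw H p * gz f p) + τ⁻¹ * gw f p) :=
          mul_le_mul h1 h2 (by positivity) (Real.sqrt_nonneg _)
  have hint : ∀ (τ : ℝ), 0 < τ → ∀ T : Set (ℂ × ℂ), T ⊆ PD (1 / 2) (1 / 2) → MeasurableSet T →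
      ∫ p in T, F p ≤ Real.sqrt B * (τ * (∫ p in T, gw H p * gz f p) + τ⁻¹ * ∫ p in T, gw f p) := by
    intro τ hτ T hT hTm
    have i1 : IntegrableOn (fun p => gw H p * gz f p) T := intOn_of_subset (cgH.mul cgz) hT
    have i2 : IntegrableOn (gw f) T := intOn_of_subset cgw hT
    rw [← integral_const_mul, ← integral_const_mul, ← integral_add (i1.const_mul τ)
      (i2.const_mul τ⁻¹), ← integral_const_mul]
    exact setIntegral_mono_on (intOn_of_subset cF hT)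
      (((i1.const_mul τ).add (i2.const_mul τ⁻¹)).const_mul _) hTm (fun p _ => hpt τ hτ p)
  have hs3 : ∫ p in PD (1 / 2) ((1 / 2) ^ k₀), gw H p * gz f p ≤ B * (12 * M * (K + 1) ^ 2) := by
    refine le_trans ?_ hs1
    refine setIntegral_mono_set (intOn_of_subset (cgH.mul cgz) subset_rfl) ?_
      (LE.le.eventuallyLE (PD_mono_half hk₀))
    exact Filter.Eventually.of_forall (fun p => mul_nonneg (gw_nonneg _ _) (gz_nonneg _ _))
  have h7 : ∫ p in PD (1 / 2) (1 / 2) ∩ {p : ℂ × ℂ | (1 / 2) ^ k₀ < ‖p.2‖}, gw f p ≤ 6 * M := by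
    refine le_trans ?_ h6
    exact setIntegral_mono_set (intOn_of_subset cgw subset_rfl)
      (Filter.Eventually.of_forall (fun p => gw_nonneg _ _))
      (LE.le.eventuallyLE Set.inter_subset_left)
  have hsum : ∫ p in PD (1 / 2) (1 / 2), F p =
      (∫ p in PD (1 / 2) ((1 / 2) ^ k₀), F p) +
        ∫ p in PD (1 / 2) (1 / 2) ∩ {p : ℂ × ℂ | (1 / 2) ^ k₀ < ‖p.2‖}, F p := by
    conv_lhs => rw [hsplit]
    exact setIntegral_union hdisj hmso (intOn_of_subset cF (PD_mono_half hk₀))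
      (intOn_of_subset cF Set.inter_subset_left)
  rw [hsum]
  have A1 := hint τ₁ hτ₁p _ (PD_mono_half hk₀) hmsi
  have A2 := hint τ₂ hτ₂p _ Set.inter_subset_left hmso
  have sB := Real.sqrt_nonneg B
  have K1 : (0 : ℝ) < K + 1 := by positivity
  have k1 : (0 : ℝ) < (k₀ : ℝ) + 1 := by positivity
  have B1 : τ₁ * (∫ p in PD (1 / 2) ((1 / 2) ^ k₀), gw H p * gz f p) +
      τ₁⁻¹ * ∫ p in PD (1 / 2) ((1 / 2) ^ k₀), gw f p ≤ (B * (12 * M) + 1) * (e ^ 2 * (K + 1)) := by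
    have c1 : τ₁ * (∫ p in PD (1 / 2) ((1 / 2) ^ k₀), gw H p * gz f p) ≤
        τ₁ * (B * (12 * M * (K + 1) ^ 2)) := mul_le_mul_of_nonneg_left hs3 hτ₁p.le
    have c2 : τ₁⁻¹ * (∫ p in PD (1 / 2) ((1 / 2) ^ k₀), gw f p) ≤ τ₁⁻¹ * e ^ 4 :=
      mul_le_mul_of_nonneg_left hε (inv_nonneg.2 hτ₁p.le)
    have c3 : τ₁ * (B * (12 * M * (K + 1) ^ 2)) = (B * (12 * M)) * (e ^ 2 * (K + 1)) := by
      rw [hτ₁]; field_simp
    have c4 : τ₁⁻¹ * e ^ 4 = e ^ 2 * (K + 1) := by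
      rw [hτ₁]; field_simp
    rw [c3] at c1
    rw [c4] at c2
    linarith
  have B2 : τ₂ * (∫ p in PD (1 / 2) (1 / 2) ∩ {p : ℂ × ℂ | (1 / 2) ^ k₀ < ‖p.2‖},
        gw H p * gz f p) +
      τ₂⁻¹ * ∫ p in PD (1 / 2) (1 / 2) ∩ {p : ℂ × ℂ | (1 / 2) ^ k₀ < ‖p.2‖}, gw f p
      ≤ (B * (12 * M) + 6 * M) * (k₀ + 1) := by
    have c1 := mul_le_mul_of_nonneg_left hs2 hτ₂p.le
    have c2 := mul_le_mul_of_nonneg_left h7 (inv_nonneg.2 hτ₂p.le)
    have c3 : τ₂ * (B * (12 * M * (k₀ + 1) ^ 2)) = (B * (12 * M)) * (k₀ + 1) := by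
      rw [hτ₂]; field_simp
    have c4 : τ₂⁻¹ * (6 * M) = 6 * M * (k₀ + 1) := by
      rw [hτ₂]; field_simp
    rw [c3] at c1
    rw [c4] at c2
    linarith
  have C1 := mul_le_mul_of_nonneg_left B1 sB
  have C2 := mul_le_mul_of_nonneg_left B2 sB
  have : Real.sqrt B * ((B * (12 * M) + 1) * (e ^ 2 * (K + 1)) +
      (B * (12 * M) + 6 * M) * (k₀ + 1)) =
      Real.sqrt B * ((B * (12 * M) + 1) * (e ^ 2 * (K + 1))) +
        Real.sqrt B * ((B * (12 * M) + 6 * M) * (k₀ + 1)) := by ring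
  rw [this]
  linarith

end CMA
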