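import Pool.Agent.Work.MP_4eb3f9_an_helper6.FA

/-!
# Block F: interface of its parts

`Stmt_F6` : for admissible `f` and a radius `r₀`, the extension `φ` of `f` from `{|w| ≥ r₀}`.
Prove  `theorem stmt_F6 (hI3 : Stmt_I3) (hT1 : Stmt_T1) (hT2 : Stmt_T2) (hT3 : Stmt_T3)
(hE : Stmt_E) : Stmt_F6`.

Proof.  `horizontal` (file FA) with `r = r₀` bounds the integral of `gz (eta c δ f)` over
`{|w| ≤ r₀}` by `48 r₀² M (1 + log (1/r₀))`.  In polar coordinates in the `w` variable there is a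
radius `r ∈ (r₀/2, r₀)` with
`∫ θ in 0..2π, ∫ z, gz (eta c δ f) (z, r e^{iθ}) ≤ 129 M (1 + log (1/r₀))`
(otherwise the integral over `r₀/2 < |w| < r₀` would be at least `129 * (3/8) r₀² M (...)`).
`Stmt_E` with `u = eta c δ f`, this `r`, and `δ/4` in place of `δ` gives `ψ`, `s`.
Put `ψ' = ψ - 5δ`, `m` from `Stmt_T1` with parameter `δ/2`, and
`φ = f + m (ψ' - f)` on `{|z| < 1, |w| < s}`, `φ = f` elsewhere.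
On `|z| ≤ 1`, `|w| = s`: `ψ' ≤ δ/4 - eta - 5δ ≤ δ/4 + f + 4δ - 5δ = f - 3δ/4` (`eta_ge`), and on
`|z| = 1`, `|w| ≤ s`: `ψ' ≤ δ/4 - 5δ` while `f > -δ` (`Lev`).  So `ψ' - f < -δ/2` near the
boundary of the polydisc, hence `φ = f` there, and `φ` is smooth; psh by `Stmt_T2`.
`φ ≤ 0` on the bidisc: if `ψ' - f ≤ -δ/2` then `φ = f ≤ 0`, otherwise `f < ψ' + δ/2 ≤ -4δ` and
`φ ≤ max f ψ' + δ/2 < 0`.  `φ ≥ f` and, on the polydisc, `φ ≥ ψ'` (as `m x ≥ max x 0`).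
Finally `-∫ φ(z,0) ≤ -∫ ψ'(z,0) = 5πδ - ∫ ψ(z,0)`.
-/

open Complex MeasureTheory Filter Topology
open scoped ContDiff

namespace CMA

def Stmt_F6 : Prop :=
  ∃ C : ℝ, 0 ≤ C ∧ ∀ (δ M : ℝ) (c : ℝ → ℝ) (f : ℂ × ℂ → ℝ) (r₀ : ℝ), 0 < δ → 0 < M →
    IsCut δ c → Adm δ M f → 0 < r₀ → r₀ ≤ 1 / 2 →
    ∃ φ : ℂ × ℂ → ℝ, SPsh φ ∧ (∀ p ∈ Bidisc, φ p ≤ 0) ∧ (∀ p, f p ≤ φ p) ∧
      (∀ p : ℂ × ℂ, r₀ ≤ ‖p.2‖ → φ =ᶠ[𝓝 p] f) ∧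
      -(∫ z in Metric.ball (0 : ℂ) 1, φ (z, 0)) ≤
        C * (1 + δ + Real.sqrt (M * (1 + Real.log (1 / r₀))))

end CMA
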