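import Pool.Agent.Work.MP_4eb3f9_an_helper6.FE
import Pool.Agent.Work.MP_4eb3f9_an_helper6.FInterface

/-!
# Block F, part F: assembly of `Stmt_Main`
-/

open Complex MeasureTheory Filter Topology
open scoped ContDiff

namespace CMA

/-- The first Cauchy-Schwarz factor. -/
def Stmt_F7 : Prop :=
  ∀ (δ M κ : ℝ) (S : Set (ℂ × ℂ → ℝ)), 0 < δ → 0 < M → 0 < κ →
    (∀ f ∈ S, Adm δ M f) →
    (∀ f ∈ S, ∀ θ : ℂ × ℂ → ℝ, Continuous θ → HasCompactSupport θ → tsupport θ ⊆ Bidisc →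
      ∀ ε : ℝ, 0 < ε → ∃ g ∈ S, (∀ p ∈ Bidisc, g p ≤ f p) ∧
        |(∫ p, θ p * dH g p) - κ * ∫ z in Metric.ball (0 : ℂ) 1, θ (z, 0)| ≤ ε) →
    ∀ f ∈ S, ∀ φ : ℂ × ℂ → ℝ, SPsh φ → (∀ p ∈ Bidisc, φ p ≤ 0) → (∀ p, f p ≤ φ p) →
      ∫ p in PD (1 / 2) (1 / 2), bB φ f f p ≤
        6 * (κ * (-(∫ z in Metric.ball (0 : ℂ) 1, φ (z, 0))) + 1 + 3 * δ * M)

lemma PD34_sub_bidisc : PD (3 / 4) (3 / 4) ⊆ Bidisc := fun p hp =>
  ⟨lt_of_le_of_lt hp.1 (by norm_num), lt_of_le_of_lt hp.2 (by norm_num)⟩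

lemma PD_half_sub : PD (1 / 2) (1 / 2) ⊆ PD (3 / 4) (3 / 4) := fun p hp =>
  ⟨hp.1.trans (by norm_num), hp.2.trans (by norm_num)⟩

lemma bump_sq_cs {β : ℂ → ℝ} (hβ : IsBump β) : HasCompactSupport (fun z => β z ^ 2) := by
  have := hβ.cs.mul_right (f' := β)
  refine this.mono ?_
  intro z hz
  have hz' : β z ^ 2 ≠ 0 := hz
  show β z * β z ≠ 0
  rwa [← pow_two]

lemma bump_integral_pos {β : ℂ → ℝ} (hβ : IsBump β) :
    0 < ∫ z in Metric.ball (0 : ℂ) 1, β z := by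
  have hint : IntegrableOn β (Metric.ball (0 : ℂ) 1) :=
    (hβ.smooth.continuous.integrable_of_hasCompactSupport hβ.cs).integrableOn
  have h1 : ∫ z in Metric.ball (0 : ℂ) (3 / 10), (1 : ℝ) ≤ ∫ z in Metric.ball (0 : ℂ) 1, β z := by
    have e : ∫ z in Metric.ball (0 : ℂ) (3 / 10), (1 : ℝ) = ∫ z in Metric.ball (0 : ℂ) (3 / 10), β z :=
      setIntegral_congr_fun measurableSet_ball (fun z hz => by
        have : ‖z‖ < 3 / 10 := by simpa using hz
        exact (hβ.one z this.le).symm)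
    rw [e]
    exact setIntegral_mono_set hint (Filter.Eventually.of_forall (fun z => hβ.nonneg z))
      (LE.le.eventuallyLE (Metric.ball_subset_ball (by norm_num)))
  refine lt_of_lt_of_le ?_ h1
  rw [setIntegral_const, smul_eq_mul, mul_one]
  refine ENNReal.toReal_pos ?_ ?_
  · exact (Metric.measure_ball_pos volume (0 : ℂ) (by norm_num)).ne'
  · exact measure_ball_lt_top.ne

lemma gw_sub_le {f g : ℂ × ℂ → ℝ} (hf : ContDiff ℝ ∞ f) (hg : ContDiff ℝ ∞ g) (p : ℂ × ℂ) :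
    gw g p ≤ 2 * gw f p + 2 * gw (fun q => f q - g q) p := by
  simp only [gw, pd_sub hf hg]
  nlinarith [sq_nonneg (pd 2 f p - (pd 2 f p - pd 2 g p)), sq_nonneg (pd 2 f p + (pd 2 f p - pd 2 g p)),
    sq_nonneg (2 * pd 2 f p - pd 2 g p), sq_nonneg (2 * pd 3 f p - pd 3 g p)]

lemma aux_sq {x y d : ℝ} (h1 : -x - 4 * d ≤ y) (h2 : x ≤ 0) : x ^ 2 ≤ 2 * y ^ 2 + 32 * d ^ 2 := by
  have h3 : 0 ≤ y + 4 * d := by linarith
  have h4 : x ^ 2 ≤ (y + 4 * d) ^ 2 := by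
    apply sq_le_sq'
    · linarith
    · linarith
  nlinarith [sq_nonneg (y - 4 * d)]

lemma aux_div {P a : ℝ} (hP : 0 ≤ P) (ha : 0 ≤ a) : P * (a / (P + 1)) ≤ a := by
  rw [← mul_div_assoc, div_le_iff₀ (by positivity)]
  nlinarith

lemma aux_log {L K : ℝ} (hL : L ≤ 1) (hK : 0 ≤ K) : (K + 1) * L ≤ K + 1 := by nlinarith

lemma aux_mul {M a q : ℝ} (hM : 0 ≤ M) (h : a ≤ 3 * q) : M * a ≤ 3 * M * q := by
  calc M * a ≤ M * (3 * q) := mul_le_mul_of_nonneg_left h hM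
    _ = 3 * M * q := by ring

lemma aux_q {a b q : ℝ} (ha : 0 ≤ a) (hq : 1 ≤ q) : a + b * q ≤ (a + b) * q := by nlinarith

lemma aux_q' {a q : ℝ} (ha : 0 ≤ a) (hq : 1 ≤ q) : a ≤ a * q := by nlinarith

/-- Numerical core. -/
lemma numeric {κa P Q D : ℝ} (hκa : 0 < κa) (hP : 0 ≤ P) (hQ : 0 ≤ Q) (hD : 0 ≤ D)
    {e : ℝ} (he : P * e ≤ κa)
    (h : ∀ q : ℕ, 1 ≤ q → 2 * κa * (q : ℝ) ^ 4 - 2 ≤ P * e * q ^ 4 + Q * q ^ 2 + D) : False := by
  obtain ⟨q, hq⟩ := exists_nat_gt ((2 + Q + D) / κa + 1)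
  have hq0 : 0 ≤ (2 + Q + D) / κa := by positivity
  have hq1 : (1 : ℝ) ≤ q := by linarith
  have hq1' : 1 ≤ q := by exact_mod_cast hq1
  have h1 := h q hq1'
  have h2 : P * e * (q : ℝ) ^ 4 ≤ κa * q ^ 4 := mul_le_mul_of_nonneg_right he (by positivity)
  have hq2 : (1 : ℝ) ≤ (q : ℝ) ^ 2 := one_le_pow₀ hq1
  have h3 : κa * (q : ℝ) ^ 4 ≤ (2 + Q + D) * q ^ 2 := by nlinarith
  have h4 : κa * (q : ℝ) ^ 2 ≤ 2 + Q + D := by
    have e4 : (q : ℝ) ^ 4 = q ^ 2 * q ^ 2 := by ring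
    rw [e4, ← mul_assoc] at h3
    exact le_of_mul_le_mul_right h3 (by positivity)
  have h5 : (q : ℝ) ≤ (q : ℝ) ^ 2 := by nlinarith
  have h6 : (2 + Q + D) / κa < q := by linarith
  rw [div_lt_iff₀ hκa] at h6
  nlinarith

theorem stmt_Main_of (hI1 : Stmt_I1) (hI3 : Stmt_I3) (hI4 : Stmt_I4) (hT1 : Stmt_T1)
    (hT3 : Stmt_T3) (hN : Stmt_N) (hV : Stmt_V) (hF6 : Stmt_F6) (hF7 : Stmt_F7) : Stmt_Main := by
  intro δ M κ S hδ hM hκ hne hadm hdir
  obtain ⟨c, hc⟩ := hT1.1 δ hδ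
  obtain ⟨β, hβ⟩ := exists_bump
  obtain ⟨B1, hB1, hg1, hh1⟩ := fst_bounds hβ.smooth hβ.cs
  obtain ⟨B2, hB2, _, hh2⟩ := fst_bounds (hβ.smooth.pow 2) (bump_sq_cs hβ)
  obtain ⟨B3, hB3, hw3⟩ := gw_hhat hβ
  obtain ⟨CV, hCV, hV1⟩ := hV.1
  obtain ⟨CP, hCP, hV2⟩ := hV.2
  obtain ⟨CF, hCF, hF6⟩ := hF6
  set B : ℝ := B1 + B2 + B3 with hBdef
  have hB : 0 ≤ B := by positivity
  have hBg : ∀ p : ℂ × ℂ, gz (fun q : ℂ × ℂ => β q.1) p ≤ B := fun p => by
    have := hg1 p; linarith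
  have hBh : ∀ p : ℂ × ℂ, |hzz (fun q : ℂ × ℂ => β q.1) p| ≤ B := fun p => by
    have := hh1 p; linarith
  have hB2' : ∀ p : ℂ × ℂ, |hzz (fun q : ℂ × ℂ => β q.1 ^ 2) p| ≤ B := fun p => by
    have := hh2 p; linarith
  have hBw : ∀ (K : ℕ) (p : ℂ × ℂ), gw (fun q : ℂ × ℂ => hhat β K q.2) p ≤
      B * ∑ k ∈ Finset.range K, (4 : ℝ) ^ k * (shell k).indicator (fun _ => (1 : ℝ)) p.2 := by
    intro K p
    refine (hw3 K p).trans (mul_le_mul_of_nonneg_right (by linarith) ?_)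
    exact Finset.sum_nonneg (fun k _ => mul_nonneg (by positivity)
      (Set.indicator_nonneg (fun _ _ => zero_le_one) _))
  -- facts about members of the family
  have hsm : ∀ f ∈ S, ContDiff ℝ ∞ f := fun f hf => (hadm f hf).spsh.smooth
  have hηsm : ∀ f ∈ S, ContDiff ℝ ∞ (eta c δ f) := fun f hf => cd_eta hc (hsm f hf)
  have hηcs : ∀ f ∈ S, HasCompactSupport (eta c δ f) := fun f hf =>
    eta_cs hδ hc (hsm f hf).continuous (hadm f hf).level
  have hηsupp : ∀ f ∈ S, ∀ p, eta c δ f p ≠ 0 → p ∈ Bidisc := fun f hf p hp =>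
    eta_supp hδ hc (hadm f hf).level hp
  have hvert : ∀ f ∈ S, ∫ p, gw (eta c δ f) p ≤ 6 * M := fun f hf =>
    vertical hI3 hT3 hδ hc (hadm f hf)
  have hdeep : ∀ f ∈ S, ∀ p ∈ PD (3 / 4) (3 / 4), f p ≤ -4 * δ := fun f hf p hp =>
    (hadm f hf).deep p hp.1 hp.2
  have hgwη : ∀ f ∈ S, ∀ p ∈ PD (3 / 4) (3 / 4), gw (eta c δ f) p = gw f p := fun f hf p hp =>
    gw_eta_deep hc (hsm f hf) (hdeep f hf p hp)
  have hgzη : ∀ f ∈ S, ∀ p ∈ PD (3 / 4) (3 / 4), gz (eta c δ f) p = gz f p := fun f hf p hp =>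
    gz_eta_deep hc (hsm f hf) (hdeep f hf p hp)
  have hgwint : ∀ f ∈ S, Integrable (gw (eta c δ f)) := by
    intro f hf
    refine integrable_of_cs (cd_gw (hηsm f hf)).continuous ?_
    refine (hηcs f hf).mono' ?_
    intro p hp
    by_contra hh
    apply hp
    simp [gw, pd_eq_zero_of_nmem _ hh]
  have hms34 : MeasurableSet (PD (3 / 4) (3 / 4)) := (isCompact_PD _ _).measurableSet
  have hgw34 : ∀ f ∈ S, ∫ p in PD (3 / 4) (3 / 4), gw f p ≤ 6 * M := by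
    intro f hf
    have e : ∫ p in PD (3 / 4) (3 / 4), gw f p = ∫ p in PD (3 / 4) (3 / 4), gw (eta c δ f) p :=
      setIntegral_congr_fun hms34 (fun p hp => (hgwη f hf p hp).symm)
    rw [e]
    exact (setIntegral_le_integral (hgwint f hf)
      (Filter.Eventually.of_forall (fun p => gw_nonneg _ _))).trans (hvert f hf)
  have hgw12 : ∀ f ∈ S, ∫ p in PD (1 / 2) (1 / 2), gw f p ≤ 6 * M := by
    intro f hf
    refine le_trans ?_ (hgw34 f hf)
    exact setIntegral_mono_set (intOn_of_subset (cd_gw (hsm f hf)).continuous subset_rfl)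
      (Filter.Eventually.of_forall (fun p => gw_nonneg _ _)) (LE.le.eventuallyLE PD_half_sub)
  -- L² bound
  set V34 : ℝ := (volume (PD (3 / 4) (3 / 4))).toReal with hV34
  have hV34n : 0 ≤ V34 := ENNReal.toReal_nonneg
  set CN : ℝ := 2 * (CP * (6 * M)) + 32 * δ ^ 2 * V34 + 6 * M with hCN
  have hL2 : ∀ f ∈ S, ∫ p in PD (3 / 4) (3 / 4), f p ^ 2 ≤ CN := by
    intro f hf
    have hη2 := hV2 (eta c δ f) (hηsm f hf) (hηcs f hf) (hηsupp f hf)
    have cη := (hηsm f hf).continuous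
    have cf := (hsm f hf).continuous
    have h1 : ∫ p in PD (3 / 4) (3 / 4), f p ^ 2 ≤
        ∫ p in PD (3 / 4) (3 / 4), (2 * eta c δ f p ^ 2 + 32 * δ ^ 2) := by
      refine setIntegral_mono_on (intOn_of_subset (cf.pow 2) subset_rfl)
        (intOn_of_subset ((continuous_const.mul (cη.pow 2)).add continuous_const) subset_rfl)
        hms34 ?_
      intro p hp
      have h2 := eta_ge (f := f) hc p
      have h3 := (hadm f hf).nonpos p (PD34_sub_bidisc hp)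
      exact aux_sq h2 h3
    have h5 : ∫ p in PD (3 / 4) (3 / 4), (2 * eta c δ f p ^ 2 + 32 * δ ^ 2) =
        2 * (∫ p in PD (3 / 4) (3 / 4), eta c δ f p ^ 2) + 32 * δ ^ 2 * V34 := by
      have i1 : IntegrableOn (fun p => 2 * eta c δ f p ^ 2) (PD (3 / 4) (3 / 4)) :=
        intOn_of_subset (continuous_const.mul (cη.pow 2)) subset_rfl
      have i2 : IntegrableOn (fun _ : ℂ × ℂ => 32 * δ ^ 2) (PD (3 / 4) (3 / 4)) :=
        intOn_of_subset continuous_const subset_rfl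
      rw [integral_add i1 i2, integral_const_mul, setIntegral_const, smul_eq_mul]
      simp only [Measure.real, hV34]
      ring
    have hcs2 : HasCompactSupport (fun p => eta c δ f p ^ 2) := by
      refine (hηcs f hf).mono ?_
      intro p hp
      have hp' : eta c δ f p ^ 2 ≠ 0 := hp
      exact fun h0 => hp' (by rw [h0]; norm_num)
    have h6 : ∫ p in PD (3 / 4) (3 / 4), eta c δ f p ^ 2 ≤ ∫ p, eta c δ f p ^ 2 :=
      setIntegral_le_integral (integrable_of_cs (cη.pow 2) hcs2)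
        (Filter.Eventually.of_forall (fun p => sq_nonneg _))
    have h7 : CP * ∫ p, gw (eta c δ f) p ≤ CP * (6 * M) :=
      mul_le_mul_of_nonneg_left (hvert f hf) hCP
    rw [h5] at h1
    have : 0 ≤ 6 * M := by positivity
    linarith
  -- constants
  set a₀ : ℝ := ∫ z in Metric.ball (0 : ℂ) 1, β z with ha₀
  have ha₀p : 0 < a₀ := bump_integral_pos hβ
  set P1 : ℝ := 6 * κ * CF * (1 + δ + Real.sqrt (3 * M)) + 6 + 18 * δ * M with hP1
  have hP1n : 0 ≤ P1 := by positivity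
  set P : ℝ := P1 + 2 * CV * B ^ 2 + B + 2 * (Real.sqrt B * (B * (12 * M) + 1)) with hPdef
  have hPn : 0 ≤ P := by positivity
  have hκa : 0 < κ * a₀ := by positivity
  set e : ℝ := min 1 (κ * a₀ / (P + 1)) with hedef
  have he0 : 0 < e := lt_min one_pos (by positivity)
  have he1 : e ≤ 1 := min_le_left _ _
  have hPe : P * e ≤ κ * a₀ := by
    have h1 : e ≤ κ * a₀ / (P + 1) := min_le_right _ _
    have h2 : P * e ≤ P * (κ * a₀ / (P + 1)) := mul_le_mul_of_nonneg_left h1 hPn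
    exact h2.trans (aux_div hPn hκa.le)
  -- no concentration
  have hNapp := hN S CN hne (fun f hf => ⟨hsm f hf, fun p => ((hadm f hf).spsh.pos p).2.1,
    fun p hp => (hadm f hf).nonpos p (PD34_sub_bidisc hp), hL2 f hf, (hgw34 f hf).trans (by
      have : 0 ≤ 2 * (CP * (6 * M)) + 32 * δ ^ 2 * V34 := by positivity
      linarith)⟩) (e ^ 4 / 4) (by positivity)
  obtain ⟨f₀, hf₀, hf₀N⟩ := hNapp
  -- small energy of `f₀` near `w = 0`
  obtain ⟨k₀, hk₀, hk₀e⟩ : ∃ k₀ : ℕ, 1 ≤ k₀ ∧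
      ∫ p in PD (1 / 2) ((1 / 2) ^ k₀), gw f₀ p ≤ e ^ 4 / 4 := by
    have cgw := (cd_gw (hsm f₀ hf₀)).continuous
    obtain ⟨A, hA⟩ := (isCompact_PD (1 / 2) (1 / 2)).exists_bound_of_continuousOn cgw.continuousOn
    have hA0 : 0 ≤ A := (norm_nonneg _).trans (hA (0, 0) (by simp [PD]))
    have htend : Tendsto (fun k : ℕ => A * (Real.pi ^ 2 * (1 / 2) ^ 2 * (1 / 4 : ℝ) ^ k)) atTop
        (𝓝 (A * (Real.pi ^ 2 * (1 / 2) ^ 2 * 0))) :=
      ((tendsto_pow_atTop_nhds_zero_of_lt_one (by norm_num) (by norm_num)).const_mul _).const_mul _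
    rw [mul_zero, mul_zero] at htend
    have hev := (htend.eventually (gt_mem_nhds (show (0 : ℝ) < e ^ 4 / 4 by positivity))).and
      (eventually_ge_atTop 1)
    obtain ⟨k, hk1, hk2⟩ := hev.exists
    refine ⟨k, hk2, ?_⟩
    have hsub := PD_mono_half hk2
    have h1 : ∫ p in PD (1 / 2) ((1 / 2) ^ k), gw f₀ p ≤ ∫ p in PD (1 / 2) ((1 / 2) ^ k), A :=
      setIntegral_mono_on (intOn_of_subset cgw subset_rfl)
        (intOn_of_subset continuous_const subset_rfl) (isCompact_PD _ _).measurableSet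
        (fun p hp => (le_abs_self _).trans (hA p (hsub hp)))
    rw [setIntegral_const, smul_eq_mul] at h1
    simp only [Measure.real] at h1
    rw [volume_PD (by norm_num) (by positivity)] at h1
    have e1 : (((1 : ℝ) / 2) ^ k) ^ 2 = (1 / 4) ^ k := by
      rw [← pow_mul, mul_comm, pow_mul]; norm_num
    rw [e1] at h1
    linarith
  -- uniform smallness
  have hsmall : ∀ g ∈ S, (∀ p ∈ Bidisc, g p ≤ f₀ p) →
      ∫ p in PD (1 / 2) ((1 / 2) ^ k₀), gw g p ≤ e ^ 4 := by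
    intro g hg hgf
    have h1 := hf₀N g hg (fun p hp => hgf p (PD34_sub_bidisc hp))
    have cg := (cd_gw (hsm g hg)).continuous
    have cf := (cd_gw (hsm f₀ hf₀)).continuous
    have hd : ContDiff ℝ ∞ (fun q => f₀ q - g q) := (hsm f₀ hf₀).sub (hsm g hg)
    have cd := (cd_gw hd).continuous
    have h2 : ∫ p in PD (1 / 2) ((1 / 2) ^ k₀), gw g p ≤
        ∫ p in PD (1 / 2) ((1 / 2) ^ k₀), (2 * gw f₀ p + 2 * gw (fun q => f₀ q - g q) p) :=
      setIntegral_mono_on (intOn_of_subset cg subset_rfl)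
        (intOn_of_subset ((continuous_const.mul cf).add (continuous_const.mul cd)) subset_rfl)
        (isCompact_PD _ _).measurableSet (fun p _ => gw_sub_le (hsm f₀ hf₀) (hsm g hg) p)
    have i1 : IntegrableOn (fun p => 2 * gw f₀ p) (PD (1 / 2) ((1 / 2) ^ k₀)) :=
      intOn_of_subset (continuous_const.mul cf) subset_rfl
    have i2 : IntegrableOn (fun p => 2 * gw (fun q => f₀ q - g q) p)
      (PD (1 / 2) ((1 / 2) ^ k₀)) := intOn_of_subset (continuous_const.mul cd) subset_rfl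
    rw [integral_add i1 i2, integral_const_mul, integral_const_mul] at h2
    have h3 : ∫ p in PD (1 / 2) ((1 / 2) ^ k₀), gw (fun q => f₀ q - g q) p ≤
        ∫ p in PD (1 / 2) (1 / 2), gw (fun q => f₀ q - g q) p :=
      setIntegral_mono_set (intOn_of_subset cd subset_rfl)
        (Filter.Eventually.of_forall (fun p => gw_nonneg _ _))
        (LE.le.eventuallyLE (PD_mono_half hk₀))
    linarith
  -- final constants
  set b : ℝ := CV * Real.sqrt (k₀ + 1) * Real.sqrt (6 * M) + 40 * δ with hb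
  have hbn : 0 ≤ b := by positivity
  set D : ℝ := B * (k₀ * (6 * M)) + Real.sqrt B * ((B * (12 * M) + 6 * M) * (k₀ + 1)) with hD
  have hDn : 0 ≤ D := by positivity
  refine numeric hκa hPn (Q := B ^ 2 * b / e) (by positivity) hDn hPe ?_
  intro q hq
  have hq1 : (1 : ℝ) ≤ q := by exact_mod_cast hq
  have hq0 : (0 : ℝ) < q := by linarith
  set K : ℕ := q ^ 4 with hK
  have hKr : (K : ℝ) = (q : ℝ) ^ 4 := by rw [hK]; push_cast; ring
  have hK1 : (1 : ℝ) ≤ (q : ℝ) ^ 4 := one_le_pow₀ hq1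
  -- test function
  set θ : ℂ × ℂ → ℝ := fun p => β p.1 * hhat β K p.2 with hθ
  have hθc : Continuous θ := (cd_fst hβ.smooth).continuous.mul
    (cd_snd (cd_hhat hβ.smooth K)).continuous
  have hθs : HasCompactSupport θ := hcs_prod hβ.cs (hhat_cs hβ K)
  have hθb : tsupport θ ⊆ Bidisc := by
    have h1 : tsupport θ ⊆ PD (1 / 2) (1 / 2) := by
      refine closure_minimal ?_ (isCompact_PD _ _).isClosed
      intro p hp
      by_contra hh
      have hh' : ¬ (‖p.1‖ ≤ 1 / 2 ∧ ‖p.2‖ ≤ 1 / 2) := hh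
      rw [not_and_or, not_le, not_le] at hh'
      rcases hh' with h | h
      · exact hp (by simp [hθ, bump_fst_zero hβ h])
      · exact hp (by simp [hθ, hhat_zero hβ K (w := p.2) (by linarith)])
    exact h1.trans PD_sub_bidisc
  obtain ⟨f, hf, hff₀, hfθ⟩ := hdir f₀ hf₀ θ hθc hθs hθb 1 one_pos
  have hθ0 : ∫ z in Metric.ball (0 : ℂ) 1, θ (z, 0) = a₀ * K := by
    have : ∀ z : ℂ, θ (z, 0) = β z * K := by
      intro z
      simp only [hθ]
      rw [hhat_eq hβ K (w := 0) (by simp)]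
    simp_rw [this]
    rw [integral_mul_const]
  rw [hθ0] at hfθ
  have hmass : κ * a₀ * q ^ 4 - 1 ≤ ∫ p, θ p * dH f p := by
    have := (abs_le.1 hfθ).1
    rw [hKr] at this
    have e1 : κ * a₀ * (q : ℝ) ^ 4 = κ * (a₀ * (q : ℝ) ^ 4) := by ring
    rw [e1]
    linarith
  -- identity I4
  have hI4' := hI4 f β (hhat β K) (hsm f hf) hβ.smooth hβ.cs (cd_hhat hβ.smooth K) (hhat_cs hβ K)
    hβ.nonneg (hhat_nonneg hβ K)
  have hηf := hηsm f hf
  have hsmallf := hsmall f hf hff₀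
  have hRa := err_a hβ hB hBh K k₀ hk₀ (hsm f hf) (hgw12 f hf) hsmallf
  have hRb := err_b hβ hB hM.le hBg hBw (hsm f hf) hηf (hηcs f hf)
    (fun p hp => hgzη f hf p (PD_half_sub hp))
    (fun r hr hr1 => horizontal hI3 hT3 hδ hM.le hc (hadm f hf) hr hr1) K k₀ hk₀ he0
    (hgw12 f hf) hsmallf
  -- extension
  have hr₀ : (0 : ℝ) < (1 / 2) ^ (K + 1) := by positivity
  have hr₀' : ((1 : ℝ) / 2) ^ (K + 1) ≤ 1 / 2 := by
    calc ((1 : ℝ) / 2) ^ (K + 1) ≤ (1 / 2) ^ 1 :=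
          pow_le_pow_of_le_one (by norm_num) (by norm_num) (by omega)
      _ = 1 / 2 := by norm_num
  obtain ⟨φ, hφ, hφ0, hfφ, hφf, hφI⟩ := hF6 δ M c f _ hδ hM hc (hadm f hf) hr₀ hr₀'
  have hY1 := hF7 δ M κ S hδ hM hκ hadm hdir f hf φ hφ hφ0 hfφ
  have hlog : Real.log (1 / (1 / 2) ^ (K + 1)) ≤ K + 1 := by
    have e1 : (1 : ℝ) / (1 / 2) ^ (K + 1) = 2 ^ (K + 1) := by
      rw [one_div, ← inv_pow]; norm_num
    rw [e1, Real.log_pow]
    have : Real.log 2 ≤ 1 := by have := Real.log_two_lt_d9; linarith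
    push_cast
    exact aux_log this (Nat.cast_nonneg _)
  have hsq : Real.sqrt (M * (1 + Real.log (1 / (1 / 2) ^ (K + 1)))) ≤
      Real.sqrt (3 * M) * q ^ 2 := by
    have h1 : M * (1 + Real.log (1 / (1 / 2) ^ (K + 1))) ≤ (3 * M) * (q ^ 2) ^ 2 := by
      refine aux_mul hM.le ?_
      have e2 : ((q : ℝ) ^ 2) ^ 2 = q ^ 4 := by ring
      rw [e2]
      rw [hKr] at hlog
      linarith
    refine (Real.sqrt_le_sqrt h1).trans (le_of_eq ?_)
    rw [Real.sqrt_mul (by positivity), Real.sqrt_sq (by positivity)]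
  have hq2 : (1 : ℝ) ≤ (q : ℝ) ^ 2 := one_le_pow₀ hq1
  have hY1' : ∫ p in PD (1 / 2) (1 / 2), bB φ f f p ≤ P1 * q ^ 2 := by
    refine hY1.trans ?_
    have h1 : -(∫ z in Metric.ball (0 : ℂ) 1, φ (z, 0)) ≤
        CF * (1 + δ + Real.sqrt (3 * M) * q ^ 2) := by
      refine hφI.trans (mul_le_mul_of_nonneg_left ?_ hCF)
      linarith
    have h2 : CF * (1 + δ + Real.sqrt (3 * M) * q ^ 2) ≤
        CF * ((1 + δ + Real.sqrt (3 * M)) * q ^ 2) := by
      refine mul_le_mul_of_nonneg_left ?_ hCF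
      exact aux_q (by positivity) hq2
    have h3 : κ * (-(∫ z in Metric.ball (0 : ℂ) 1, φ (z, 0))) ≤
        κ * (CF * ((1 + δ + Real.sqrt (3 * M)) * q ^ 2)) :=
      mul_le_mul_of_nonneg_left (h1.trans h2) hκ.le
    have h4 : (0 : ℝ) ≤ 6 + 18 * δ * M := by positivity
    have h5 : (6 + 18 * δ * M) ≤ (6 + 18 * δ * M) * q ^ 2 := aux_q' h4 hq2
    calc 6 * (κ * (-(∫ z in Metric.ball (0 : ℂ) 1, φ (z, 0))) + 1 + 3 * δ * M)
        ≤ 6 * (κ * (CF * ((1 + δ + Real.sqrt (3 * M)) * q ^ 2))) + (6 + 18 * δ * M) := by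
          linarith
      _ ≤ 6 * (κ * (CF * ((1 + δ + Real.sqrt (3 * M)) * q ^ 2))) + (6 + 18 * δ * M) * q ^ 2 := by
          linarith
      _ = P1 * q ^ 2 := by rw [hP1]; ring
  -- second factor
  have hann : ∀ k, k ≤ K + 1 → annMean k (eta c δ f) ≤
      CV * Real.sqrt (k₀ + 1) * Real.sqrt (6 * M) + CV * (2 * q ^ 2) * e ^ 2 := by
    intro k hk
    have hε' : ∫ p in PD (1 / 2) ((1 / 2) ^ k₀), gw (eta c δ f) p ≤ e ^ 4 := by
      have e1 : ∫ p in PD (1 / 2) ((1 / 2) ^ k₀), gw (eta c δ f) p =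
          ∫ p in PD (1 / 2) ((1 / 2) ^ k₀), gw f p :=
        setIntegral_congr_fun (isCompact_PD _ _).measurableSet
          (fun p hp => hgwη f hf p (PD_half_sub (PD_mono_half hk₀ hp)))
      rw [e1]; exact hsmallf
    have h1 := annMean_bound hCV hV1 hηf (hηcs f hf) (hηsupp f hf) (hvert f hf) k₀ hε' k
    refine h1.trans ?_
    have h2 : Real.sqrt (e ^ 4) = e ^ 2 := by
      have : e ^ 4 = (e ^ 2) ^ 2 := by ring
      rw [this, Real.sqrt_sq (by positivity)]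
    have h3 : Real.sqrt k ≤ 2 * q ^ 2 := by
      have h4 : (k : ℝ) ≤ (2 * q ^ 2) ^ 2 := by
        have h5 : (k : ℝ) ≤ K + 1 := by exact_mod_cast hk
        have h6 : ((2 : ℝ) * q ^ 2) ^ 2 = 4 * q ^ 4 := by ring
        rw [h6]; rw [hKr] at h5; linarith
      refine (Real.sqrt_le_sqrt h4).trans (le_of_eq ?_)
      rw [Real.sqrt_sq (by positivity)]
    rw [h2]
    have h7 : CV * Real.sqrt k * e ^ 2 ≤ CV * (2 * q ^ 2) * e ^ 2 :=
      mul_le_mul_of_nonneg_right (mul_le_mul_of_nonneg_left h3 hCV) (by positivity)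
    linarith
  have hY2 := second_factor hβ hB hBw hδ K (hsm f hf).continuous hηf.continuous
    (eta_nonneg hc) (eta_ge hc) (hadm f hf).nonpos hann
  -- Cauchy-Schwarz
  have hτ : (0 : ℝ) < e * q ^ 2 := by positivity
  have hCS := cs_step hI1 hβ hB hB2' K (hsm f hf) hφ (hadm f hf).nonpos hφf hτ
  have hX1 : e * q ^ 2 * (∫ p in PD (1 / 2) (1 / 2), bB φ f f p) ≤ P1 * e * q ^ 4 := by
    calc e * q ^ 2 * (∫ p in PD (1 / 2) (1 / 2), bB φ f f p) ≤ e * q ^ 2 * (P1 * q ^ 2) :=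
          mul_le_mul_of_nonneg_left hY1' hτ.le
      _ = P1 * e * q ^ 4 := by ring
  have hX2 : (e * q ^ 2)⁻¹ * (B * ∫ p in PD (1 / 2) (1 / 2),
      gw (fun q : ℂ × ℂ => hhat β K q.2) p * (-f p)) ≤
      B ^ 2 * b / e * q ^ 2 + 2 * CV * B ^ 2 * e * q ^ 4 := by
    have h1 : B * (∫ p in PD (1 / 2) (1 / 2),
        gw (fun q : ℂ × ℂ => hhat β K q.2) p * (-f p)) ≤
        B * (B * (K * ((CV * Real.sqrt (k₀ + 1) * Real.sqrt (6 * M) + CV * (2 * q ^ 2) * e ^ 2)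
          + 40 * δ))) := mul_le_mul_of_nonneg_left hY2 hB
    have h2 : (e * q ^ 2)⁻¹ * (B * (B * (K * ((CV * Real.sqrt (k₀ + 1) * Real.sqrt (6 * M) +
        CV * (2 * q ^ 2) * e ^ 2) + 40 * δ)))) =
        B ^ 2 * b / e * q ^ 2 + 2 * CV * B ^ 2 * e * q ^ 4 := by
      rw [hKr, hb]
      field_simp
      ring
    rw [← h2]
    exact mul_le_mul_of_nonneg_left h1 (inv_nonneg.2 hτ.le)
  have hXn : 0 ≤ ∫ p : ℂ × ℂ, β p.1 * |bB f (fun q : ℂ × ℂ => hhat β K q.2) f p| :=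
    integral_nonneg (fun p => mul_nonneg (hβ.nonneg _) (abs_nonneg _))
  have hX : ∫ p : ℂ × ℂ, β p.1 * |bB f (fun q : ℂ × ℂ => hhat β K q.2) f p| ≤
      P1 * e * q ^ 4 + (B ^ 2 * b / e * q ^ 2 + 2 * CV * B ^ 2 * e * q ^ 4) := by linarith
  -- collect
  have hRa' : B * (k₀ * (6 * M) + K * e ^ 4) ≤ B * (k₀ * (6 * M)) + B * e * q ^ 4 := by
    rw [hKr]
    have h1 : e ^ 4 ≤ e := by
      calc e ^ 4 ≤ e ^ 1 := pow_le_pow_of_le_one he0.le he1 (by norm_num)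
        _ = e := pow_one e
    have h2 : B * ((q : ℝ) ^ 4 * e ^ 4) ≤ B * ((q : ℝ) ^ 4 * e) :=
      mul_le_mul_of_nonneg_left (mul_le_mul_of_nonneg_left h1 (by positivity)) hB
    calc B * (k₀ * (6 * M) + (q : ℝ) ^ 4 * e ^ 4)
        = B * (k₀ * (6 * M)) + B * ((q : ℝ) ^ 4 * e ^ 4) := by ring
      _ ≤ B * (k₀ * (6 * M)) + B * ((q : ℝ) ^ 4 * e) := by linarith
      _ = _ := by ring
  have hRb' : Real.sqrt B * ((B * (12 * M) + 1) * (e ^ 2 * (K + 1)) +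
      (B * (12 * M) + 6 * M) * (k₀ + 1)) ≤
      2 * (Real.sqrt B * (B * (12 * M) + 1)) * e * q ^ 4 +
        Real.sqrt B * ((B * (12 * M) + 6 * M) * (k₀ + 1)) := by
    rw [hKr]
    have h1 : e ^ 2 ≤ e := by
      calc e ^ 2 ≤ e ^ 1 := pow_le_pow_of_le_one he0.le he1 (by norm_num)
        _ = e := pow_one e
    have h2 : e ^ 2 * ((q : ℝ) ^ 4 + 1) ≤ e * (2 * (q : ℝ) ^ 4) :=
      mul_le_mul h1 (by linarith) (by positivity) he0.le
    have h3 : (Real.sqrt B * (B * (12 * M) + 1)) * (e ^ 2 * ((q : ℝ) ^ 4 + 1)) ≤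
        (Real.sqrt B * (B * (12 * M) + 1)) * (e * (2 * (q : ℝ) ^ 4)) :=
      mul_le_mul_of_nonneg_left h2 (by positivity)
    calc Real.sqrt B * ((B * (12 * M) + 1) * (e ^ 2 * ((q : ℝ) ^ 4 + 1)) +
      (B * (12 * M) + 6 * M) * (k₀ + 1)) = (Real.sqrt B * (B * (12 * M) + 1)) *
        (e ^ 2 * ((q : ℝ) ^ 4 + 1)) + Real.sqrt B * ((B * (12 * M) + 6 * M) * (k₀ + 1)) := by ring
      _ ≤ (Real.sqrt B * (B * (12 * M) + 1)) * (e * (2 * (q : ℝ) ^ 4)) +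
        Real.sqrt B * ((B * (12 * M) + 6 * M) * (k₀ + 1)) := by linarith
      _ = _ := by ring
  have htot : 2 * ∫ p : ℂ × ℂ, θ p * dH f p ≤
      (P1 * e * q ^ 4 + (B ^ 2 * b / e * q ^ 2 + 2 * CV * B ^ 2 * e * q ^ 4)) +
      (B * (k₀ * (6 * M)) + B * e * q ^ 4) +
      (2 * (Real.sqrt B * (B * (12 * M) + 1)) * e * q ^ 4 +
        Real.sqrt B * ((B * (12 * M) + 6 * M) * (k₀ + 1))) := by
    have : 2 * ∫ p : ℂ × ℂ, θ p * dH f p = 2 * ∫ p : ℂ × ℂ, β p.1 * hhat β K p.2 * dH f p := rfl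
    rw [this]
    linarith
  have hfin : P * e * q ^ 4 + B ^ 2 * b / e * q ^ 2 + D =
      (P1 * e * q ^ 4 + (B ^ 2 * b / e * q ^ 2 + 2 * CV * B ^ 2 * e * q ^ 4)) +
      (B * (k₀ * (6 * M)) + B * e * q ^ 4) +
      (2 * (Real.sqrt B * (B * (12 * M) + 1)) * e * q ^ 4 +
        Real.sqrt B * ((B * (12 * M) + 6 * M) * (k₀ + 1))) := by
    rw [hPdef, hD]; ring
  rw [hfin]
  linarith

end CMA
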