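import Pool.Agent.Work.MP_4eb3f9_an.Basic

/-!
# Block V, second part: Poincare inequality in the `w` variable
-/

open Complex MeasureTheory Filter Topology
open scoped ContDiff

namespace CMA

lemma poincare {f : ℂ × ℂ → ℝ} (hf : ContDiff ℝ ∞ f) (hs : HasCompactSupport f)
    (hb : ∀ p, f p ≠ 0 → p ∈ Bidisc) : ∫ p, f p ^ 2 ≤ 16 * ∫ p, gw f p := by
  set L : ℂ × ℂ → ℝ := fun p => p.2.re with hL
  have hLc : ContDiff ℝ ∞ L := Complex.reCLM.contDiff.comp contDiff_snd
  have hL2 : ∀ p, pd 2 L p = 1 := by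
    intro p
    have h : HasFDerivAt L (Complex.reCLM.comp (ContinuousLinearMap.snd ℝ ℂ ℂ)) p :=
      (Complex.reCLM.comp (ContinuousLinearMap.snd ℝ ℂ ℂ)).hasFDerivAt
    unfold pd
    rw [h.fderiv]
    simp [dir]
  have hu : ContDiff ℝ ∞ (fun p => f p * f p) := hf.mul hf
  have hus : HasCompactSupport (fun p => f p * f p) := hs.mul_right
  have h1 := ibp' hLc hu hus 2
  rw [pd_mul hf hf 2] at h1
  simp only [hL2, one_mul] at h1
  have hpf := cd_pd hf 2
  have hpf3 := cd_pd hf 3
  have i0 : Integrable (fun p => f p ^ 2) := by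
    have := integrable_of_cs hu.continuous hus
    simpa [pow_two] using this
  have i1 : Integrable (fun p => L p * (f p * pd 2 f p + f p * pd 2 f p)) := by
    refine integrable_of_cs (hLc.continuous.mul ((hf.continuous.mul hpf.continuous).add
      (hf.continuous.mul hpf.continuous))) ?_
    refine hs.mono ?_
    intro p hp
    intro h0
    exact hp (by simp [h0])
  have i2 : Integrable (gw f) := by
    refine integrable_of_cs (cd_gw hf).continuous ?_
    refine hs.mono' ?_
    intro p hp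
    by_contra hh
    apply hp
    simp [gw, pd_eq_zero_of_nmem _ hh]
  have hpt : ∀ p, -(L p * (f p * pd 2 f p + f p * pd 2 f p)) ≤ 1 / 2 * f p ^ 2 + 8 * gw f p := by
    intro p
    have hg : 8 * gw f p = 2 * (pd 2 f p) ^ 2 + 2 * (pd 3 f p) ^ 2 := by unfold gw; ring
    rw [hg]
    by_cases h0 : f p = 0
    · rw [h0]
      nlinarith [sq_nonneg (pd 2 f p), sq_nonneg (pd 3 f p)]
    · have hp := (hb p h0).2
      have hre : |L p| ≤ 1 := (Complex.abs_re_le_norm p.2).trans hp.le
      have h2 : L p ^ 2 ≤ 1 := by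
        rw [← sq_abs]
        have := abs_nonneg (L p)
        nlinarith
      have h3 : 0 ≤ (1 / 2) * (f p + 2 * L p * pd 2 f p) ^ 2 := by positivity
      have h4 : L p ^ 2 * (pd 2 f p) ^ 2 ≤ 1 * (pd 2 f p) ^ 2 :=
        mul_le_mul_of_nonneg_right h2 (sq_nonneg _)
      nlinarith [sq_nonneg (pd 3 f p)]
  have h2 := integral_mono i1.neg ((i0.const_mul (1 / 2)).add (i2.const_mul 8)) hpt
  simp only [Pi.neg_apply, Pi.add_apply] at h2
  rw [integral_neg, integral_add (i0.const_mul (1 / 2)) (i2.const_mul 8), integral_const_mul,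
    integral_const_mul] at h2
  have h3 : ∫ p, f p * f p = ∫ p, f p ^ 2 := by simp_rw [pow_two]
  rw [h3] at h1
  linarith

end CMA
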