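import Pool.Agent.Work.MP_4eb3f9_an_helper6.F7
import Pool.Agent.Work.MP_4eb3f9_an_helper15.B3
import Pool.Agent.Work.MP_4eb3f9_an_helper17.A5
import Pool.Agent.Work.MP_4eb3f9_an_helper29.I1
import Pool.Agent.Work.MP_4eb3f9_an_helper29.I2
import Pool.Agent.Work.MP_4eb3f9_an_helper29.I3
import Pool.Agent.Work.MP_4eb3f9_an_helper29.I4
import Pool.Agent.Work.MP_4eb3f9_an_helper43.MainC
import Pool.Agent.Work.MP_4eb3f9_an_helper74.N
import Pool.Agent.Work.MP_4eb3f9_an_helper74.T1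
import Pool.Agent.Work.MP_4eb3f9_an_helper74.T2
import Pool.Agent.Work.MP_4eb3f9_an_helper74.T3
import Pool.Agent.Work.MP_4eb3f9_an_helper75.F6
import Pool.Agent.Work.MP_4eb3f9_an_helper6.V2
import Pool.Agent.Work.MP_4eb3f9_an_helper74.V1
import Pool.Agent.Work.MP_4eb3f9_an_helper80.B2
import Pool.Agent.Work.MP_4eb3f9_an_helper82.B4
import Pool.Agent.Work.MP_4eb3f9_an_helper82.E

/-!
# MP_4eb3f9_an: final assembly
-/

namespace CMA

theorem stmt_V : Stmt_V := ⟨stmt_V1, 16, by norm_num, fun _ hf hs hb => poincare hf hs hb⟩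

theorem stmt_Main_final : Stmt_Main :=
  stmt_Main_of stmt_I1 stmt_I3 stmt_I4 stmt_T1 stmt_T3 stmt_N stmt_V
    (stmt_F6 stmt_I3 stmt_T1 stmt_T2 stmt_T3 (stmt_E stmt_A stmt_B2 stmt_B3 stmt_B4 stmt_T3))
    (stmt_F7_of stmt_I1 stmt_I3 stmt_T1)

theorem no_solution : ¬ ∃ u : ℂ × ℂ → EReal, InFWithMA u lebDirac :=
  BlockC.stmt_C stmt_T1 stmt_T2 stmt_T3 stmt_I2 stmt_Main_final

end CMA
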